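import Mathlib

/-!
Very general hypersurfaces: derivations along ring homomorphisms, and the sections of the pulled
back tangent bundle which derivations of the constants produce.
-/

set_option autoImplicit false

namespace Pool.Agent.TH182.VG

open MvPolynomial

/-- additive maps satisfying the Leibniz rule along a ring homomorphism -/
structure IsDer {A L : Type*} [CommRing A] [CommRing L] (φ : A →+* L) (δ : A → L) : Prop where
  add : ∀ a b, δ (a + b) = δ a + δ b
  mul : ∀ a b, δ (a * b) = φ a * δ b + φ b * δ a

section Chain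

variable {A L : Type*} [CommRing A] [CommRing L] {φ : A →+* L} {δ : A → L}

theorem IsDer.zero (h : IsDer φ δ) : δ 0 = 0 := by
  have := h.add 0 0
  rw [add_zero] at this
  exact left_eq_add.mp this

theorem IsDer.one (h : IsDer φ δ) : δ 1 = 0 := by
  have := h.mul 1 1
  rw [mul_one, map_one, one_mul] at this
  exact left_eq_add.mp this

theorem IsDer.neg (h : IsDer φ δ) (a : A) : δ (-a) = -δ a := by
  have := h.add a (-a)
  rw [add_neg_cancel, h.zero] at this
  exact (neg_eq_of_add_eq_zero_right this.symm).symm

theorem IsDer.sub' (h : IsDer φ δ) (a b : A) : δ (a - b) = δ a - δ b := by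
  rw [sub_eq_add_neg, h.add, h.neg, sub_eq_add_neg]

theorem IsDer.sum (h : IsDer φ δ) {κ : Type*} (s : Finset κ) (f : κ → A) :
    δ (∑ i ∈ s, f i) = ∑ i ∈ s, δ (f i) := by
  classical
  induction s using Finset.induction_on with
  | empty => simp [h.zero]
  | insert i s hi ih => rw [Finset.sum_insert hi, Finset.sum_insert hi, h.add, ih]

variable {σ : Type*} [Fintype σ] {k : Type*} [CommRing k] [Algebra k A]

/-- chain rule for monomials -/
theorem IsDer.chain_mono (h : IsDer φ δ) (x : σ → A) (m : σ →₀ ℕ) :
    δ (aeval x (monomial m (1 : k))) =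
      ∑ i, φ (aeval x (pderiv i (monomial m (1 : k)))) * δ (x i) := by
  classical
  let S : Submonoid (MvPolynomial σ k) :=
    { carrier := {P | δ (aeval x P) = ∑ i, φ (aeval x (pderiv i P)) * δ (x i)}
      one_mem' := by
        change δ (aeval x (1 : MvPolynomial σ k)) = _
        rw [map_one, h.one]
        simp
      mul_mem' := by
        intro P Q hP hQ
        change δ (aeval x (P * Q)) = _
        have hP' : δ (aeval x P) = ∑ i, φ (aeval x (pderiv i P)) * δ (x i) := hP
        have hQ' : δ (aeval x Q) = ∑ i, φ (aeval x (pderiv i Q)) * δ (x i) := hQ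
        rw [map_mul, h.mul, hP', hQ', Finset.mul_sum, Finset.mul_sum, ← Finset.sum_add_distrib]
        refine Finset.sum_congr rfl fun i _ => ?_
        rw [pderiv_mul, map_add, map_mul, map_mul, map_add, map_mul, map_mul]
        ring }
  have hX : ∀ i, (X i : MvPolynomial σ k) ∈ S := by
    intro i
    change δ (aeval x (X i)) = ∑ j, φ (aeval x (pderiv j (X i))) * δ (x j)
    rw [aeval_X, Finset.sum_eq_single i]
    · simp
    · intro j _ hj
      rw [pderiv_X_of_ne (Ne.symm hj)]
      simp
    · intro h0
      exact absurd (Finset.mem_univ i) h0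
  have h1 : (monomial m (1 : k)) ∈ S := by
    rw [monomial_eq, C_1, one_mul, Finsupp.prod]
    exact S.prod_mem fun i _ => S.pow_mem (hX i) _
  exact h1

/-- chain rule -/
theorem IsDer.chain (h : IsDer φ δ) (x : σ → A) (P : MvPolynomial σ k) :
    δ (aeval x P) = (∑ m ∈ P.support, φ (aeval x (monomial m (1 : k))) *
      δ (algebraMap k A (coeff m P))) + ∑ i, φ (aeval x (pderiv i P)) * δ (x i) := by
  classical
  have hP : P = ∑ m ∈ P.support, C (coeff m P) * monomial m 1 := by
    conv_lhs => rw [P.as_sum]
    refine Finset.sum_congr rfl fun m _ => ?_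
    rw [C_mul_monomial, mul_one]
  have h1 : ∀ i, aeval x (pderiv i P) = ∑ m ∈ P.support, algebraMap k A (coeff m P) *
      aeval x (pderiv i (monomial m (1 : k))) := by
    intro i
    conv_lhs => rw [hP]
    rw [map_sum, map_sum]
    refine Finset.sum_congr rfl fun m _ => ?_
    rw [pderiv_C_mul, map_mul, aeval_C]
  have h2 : aeval x P = ∑ m ∈ P.support, algebraMap k A (coeff m P) *
      aeval x (monomial m (1 : k)) := by
    conv_lhs => rw [hP]
    rw [map_sum]
    refine Finset.sum_congr rfl fun m _ => ?_
    rw [map_mul, aeval_C]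
  rw [h2, h.sum]
  have h3 : ∑ i, φ (aeval x (pderiv i P)) * δ (x i) = ∑ m ∈ P.support,
      φ (algebraMap k A (coeff m P)) * δ (aeval x (monomial m (1 : k))) := by
    have h4 : ∀ i, φ (aeval x (pderiv i P)) * δ (x i) = ∑ m ∈ P.support,
        φ (algebraMap k A (coeff m P)) * (φ (aeval x (pderiv i (monomial m (1 : k)))) * δ (x i)) := by
      intro i
      rw [h1, map_sum, Finset.sum_mul]
      refine Finset.sum_congr rfl fun m _ => ?_
      rw [map_mul, mul_assoc]
    simp only [h4]
    rw [Finset.sum_comm]
    refine Finset.sum_congr rfl fun m _ => ?_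
    rw [← Finset.mul_sum, ← h.chain_mono (k := k) x m]
  rw [h3, ← Finset.sum_add_distrib]
  refine Finset.sum_congr rfl fun m _ => ?_
  rw [h.mul]
  ring

/-- chain rule when the constants are killed -/
theorem IsDer.chain_const (h : IsDer φ δ) (hc : ∀ c : k, δ (algebraMap k A c) = 0) (x : σ → A)
    (P : MvPolynomial σ k) : δ (aeval x P) = ∑ i, φ (aeval x (pderiv i P)) * δ (x i) := by
  rw [h.chain x P]
  simp only [hc, mul_zero, Finset.sum_const_zero, zero_add]

end Chain

end Pool.Agent.TH182.VG
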