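import Mathlib
import Pool.Agent.TH182.VG.Sec

/-!
Sections of the pulled back tangent bundle: they span.
-/

set_option autoImplicit false

namespace Pool.Agent.TH182.VG

open MvPolynomial

variable {σ : Type} [Fintype σ] [DecidableEq σ]

theorem aeval_smul_homog {k A : Type*} [CommRing k] [CommRing A] [Algebra k A]
    {P : MvPolynomial σ k} {n : ℕ} (hP : P.IsHomogeneous n) (c : A) (x : σ → A) :
    aeval (fun i => c * x i) P = c ^ n * aeval x P := by
  rw [aeval_def, eval₂_eq, aeval_def, eval₂_eq, Finset.mul_sum]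
  refine Finset.sum_congr rfl fun s hs => ?_
  have hd : ∑ i, s i = n := by
    have := hP (mem_support_iff.mp hs)
    rw [← this, Finsupp.weight_apply, Finsupp.sum_fintype _ _ (fun _ => by simp)]
    simp
  simp only [mul_pow]
  rw [Finset.prod_mul_distrib]
  have h1 : ∏ i ∈ s.support, c ^ s i = c ^ n := by
    rw [Finset.prod_pow_eq_pow_sum]
    congr 1
    rw [← hd]
    exact Finset.sum_subset (Finset.subset_univ _) (fun i _ hi => by simpa using hi)
  rw [h1]
  ring

/-- data of a section -/
structure Sec (σ : Type) where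
  a : (σ →₀ ℕ) → MvPolynomial σ ℂ
  b : σ → MvPolynomial σ ℂ

/-- the section -/
noncomputable def secv {A : Type} [CommRing A] [Algebra ℂ A] (M : Finset (σ →₀ ℕ)) (S : Sec σ)
    (x : σ → A) (y : (σ →₀ ℕ) → σ → A) : σ → A := fun k =>
  ∑ m ∈ M, aeval x (S.a m) * y m k + aeval x (S.b k)

/-- admissible data -/
structure Adm (F : MvPolynomial σ ℂ) (S : Sec σ) : Prop where
  ha : ∀ m, (S.a m).IsHomogeneous 1
  hb : ∀ k, (S.b k).IsHomogeneous 2
  rel : ∑ m ∈ F.support, S.a m * monomial m 1 = ∑ k, S.b k * pderiv k F

theorem Adm.dot {F : MvPolynomial σ ℂ} {S : Sec σ} (hS : Adm F S) {A : Type} [CommRing A]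
    [Algebra ℂ A] {x : σ → A} {y : (σ →₀ ℕ) → σ → A}
    (hy : ∀ m ∈ F.support, ∑ k, aeval x (pderiv k F) * y m k = -aeval x (monomial m (1 : ℂ))) :
    ∑ k, aeval x (pderiv k F) * secv F.support S x y k = 0 := by
  have h1 : ∀ k, aeval x (pderiv k F) * secv F.support S x y k =
      ∑ m ∈ F.support, aeval x (S.a m) * (aeval x (pderiv k F) * y m k) +
        aeval x (pderiv k F) * aeval x (S.b k) := by
    intro k
    rw [secv, mul_add, Finset.mul_sum]
    congr 1
    refine Finset.sum_congr rfl fun m _ => ?_
    ring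
  simp only [h1]
  rw [Finset.sum_add_distrib, Finset.sum_comm]
  have h2 : ∀ m ∈ F.support, ∑ k, aeval x (S.a m) * (aeval x (pderiv k F) * y m k) =
      -(aeval x (S.a m * monomial m 1)) := by
    intro m hm
    rw [← Finset.mul_sum, hy m hm, map_mul]
    ring
  rw [Finset.sum_congr rfl h2, Finset.sum_neg_distrib, ← map_sum, hS.rel, map_sum]
  rw [neg_add_eq_zero]
  refine Finset.sum_congr rfl fun k _ => ?_
  rw [map_mul, mul_comm]

/-- first kind of sections -/
noncomputable def S1 (F : MvPolynomial σ ℂ) (j k l : σ) : Sec σ where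
  a := fun m => C (coeff m (X l * pderiv k F)) * X j
  b := fun k' => if k' = k then X j * X l else 0

/-- second kind of sections -/
noncomputable def S2 (i j : σ) (P : σ →₀ ℕ) : Sec σ where
  a := fun m => (if m = P + Finsupp.single i 1 then X j else 0) -
    (if m = P + Finsupp.single j 1 then X i else 0)
  b := fun _ => 0

theorem S1_adm {F : MvPolynomial σ ℂ} {d : ℕ} (hF : F.IsHomogeneous d) (hd : 1 ≤ d)
    (hsupp : ∀ m : σ →₀ ℕ, m.degree = d → coeff m F ≠ 0) (j k l : σ) : Adm F (S1 F j k l) := by
  have hH : (X l * pderiv k F).IsHomogeneous d := by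
    have h1 := (isHomogeneous_X ℂ l).mul (hF.pderiv (i := k))
    rwa [show 1 + (d - 1) = d by omega] at h1
  refine ⟨fun m => ?_, fun k' => ?_, ?_⟩
  · have h1 := (isHomogeneous_C σ (coeff m (X l * pderiv k F))).mul (isHomogeneous_X ℂ j)
    rwa [zero_add] at h1
  · simp only [S1]
    split_ifs
    · exact (isHomogeneous_X ℂ j).mul (isHomogeneous_X ℂ l)
    · exact isHomogeneous_zero _ _ _
  · simp only [S1]
    have h1 : ∑ m ∈ F.support, C (coeff m (X l * pderiv k F)) * X j * monomial m (1 : ℂ) =
        X j * (X l * pderiv k F) := by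
      conv_rhs => rw [(X l * pderiv k F : MvPolynomial σ ℂ).as_sum]
      rw [Finset.mul_sum]
      symm
      apply Finset.sum_subset_zero_on_sdiff (s₁ := (X l * pderiv k F : MvPolynomial σ ℂ).support)
      · intro m hm
        rw [mem_support_iff]
        apply hsupp
        by_contra h0
        rw [mem_support_iff] at hm
        apply hm
        apply hH.coeff_eq_zero
        exact h0
      · intro m hm
        rw [Finset.mem_sdiff] at hm
        rw [notMem_support_iff.mp hm.2, C_0, zero_mul, zero_mul]
      · intro m _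
        rw [← mul_one (coeff m (X l * pderiv k F)), ← C_mul_monomial, mul_one]
        ring
    rw [h1]
    simp only [ite_mul, zero_mul, Finset.sum_ite_eq', Finset.mem_univ, if_true]
    ring

theorem S2_adm {F : MvPolynomial σ ℂ} {d : ℕ}
    (hsupp : ∀ m : σ →₀ ℕ, m.degree = d → coeff m F ≠ 0) (i j : σ) (P : σ →₀ ℕ)
    (hP : P.degree + 1 = d) : Adm F (S2 i j P) := by
  have hdeg : ∀ i, P + Finsupp.single i 1 ∈ F.support := by
    intro i
    rw [mem_support_iff]
    apply hsupp
    rw [map_add, Finsupp.degree_single, hP]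
  refine ⟨fun m => ?_, fun k' => isHomogeneous_zero _ _ _, ?_⟩
  · simp only [S2]
    refine IsHomogeneous.sub ?_ ?_
    · split_ifs
      · exact isHomogeneous_X ℂ j
      · exact isHomogeneous_zero _ _ _
    · split_ifs
      · exact isHomogeneous_X ℂ i
      · exact isHomogeneous_zero _ _ _
  · simp only [S2, sub_mul, Finset.sum_sub_distrib, ite_mul, zero_mul, Finset.sum_ite_eq',
      Finset.sum_const_zero]
    rw [if_pos (hdeg i), if_pos (hdeg j), monomial_add_single, monomial_add_single]
    ring

theorem secv_S1 {F : MvPolynomial σ ℂ} {A : Type} [CommRing A] [Algebra ℂ A] (x : σ → A)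
    (y : (σ →₀ ℕ) → σ → A) (j k l k' : σ) : secv F.support (S1 F j k l) x y k' =
      x j * ((∑ m ∈ F.support, algebraMap ℂ A (coeff m (X l * pderiv k F)) * y m k') +
        if k' = k then x l else 0) := by
  simp only [secv, S1]
  rw [mul_add, Finset.mul_sum]
  congr 1
  · refine Finset.sum_congr rfl fun m _ => ?_
    rw [map_mul, aeval_C, aeval_X]
    ring
  · split_ifs
    · rw [map_mul, aeval_X, aeval_X]
    · rw [map_zero, mul_zero]

theorem secv_S2 {F : MvPolynomial σ ℂ} {d : ℕ}
    (hsupp : ∀ m : σ →₀ ℕ, m.degree = d → coeff m F ≠ 0) {A : Type} [CommRing A] [Algebra ℂ A]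
    (x : σ → A) (y : (σ →₀ ℕ) → σ → A) (i j : σ) (P : σ →₀ ℕ) (hP : P.degree + 1 = d) (k' : σ) :
    secv F.support (S2 i j P) x y k' =
      x j * y (P + Finsupp.single i 1) k' - x i * y (P + Finsupp.single j 1) k' := by
  have hdeg : ∀ i, P + Finsupp.single i 1 ∈ F.support := by
    intro i
    rw [mem_support_iff]
    apply hsupp
    rw [map_add, Finsupp.degree_single, hP]
  simp only [secv, S2, map_sub, sub_mul, Finset.sum_sub_distrib, map_zero, add_zero,
    apply_ite (aeval x), aeval_X, ite_mul, zero_mul, Finset.sum_ite_eq']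
  rw [if_pos (hdeg i), if_pos (hdeg j)]

/-- A functional vanishing on all the sections is proportional to the gradient. -/
theorem functional {F : MvPolynomial σ ℂ} {d : ℕ} (hF : F.IsHomogeneous d) (hd : 1 ≤ d)
    (hsupp : ∀ m : σ →₀ ℕ, m.degree = d → coeff m F ≠ 0) {E : Type} [Field E] [Algebra ℂ E]
    {x : σ → E} (hx : x ≠ 0) {y : (σ →₀ ℕ) → σ → E} {w : σ → E}
    (hw : ∀ S : Sec σ, Adm F S → ∑ k, w k * secv F.support S x y k = 0) :
    ∃ u : E, ∀ k, w k = u * aeval x (pderiv k F) := by
  obtain ⟨j0, hj0⟩ := Function.ne_iff.mp hx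
  have hx0 : x j0 ≠ 0 := hj0
  set W : (σ →₀ ℕ) → E := fun m => ∑ k, w k * y m k with hW
  have h2 : ∀ (i : σ) (P : σ →₀ ℕ), P.degree + 1 = d →
      x j0 * W (P + Finsupp.single i 1) = x i * W (P + Finsupp.single j0 1) := by
    intro i P hP
    have h3 := hw _ (S2_adm hsupp i j0 P hP)
    have h4 : ∀ k, w k * secv F.support (S2 i j0 P) x y k =
        x j0 * (w k * y (P + Finsupp.single i 1) k) -
          x i * (w k * y (P + Finsupp.single j0 1) k) := by
      intro k
      rw [secv_S2 hsupp x y i j0 P hP k]
      ring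
    simp only [h4] at h3
    rw [Finset.sum_sub_distrib, ← Finset.mul_sum, ← Finset.mul_sum] at h3
    exact sub_eq_zero.mp h3
  set u : E := W (Finsupp.single j0 d) / x j0 ^ d with hu
  have hmon : ∀ (P : σ →₀ ℕ) (i : σ), aeval x (monomial (P + Finsupp.single i 1) (1 : ℂ)) =
      aeval x (monomial P (1 : ℂ)) * x i := by
    intro P i
    rw [monomial_add_single, pow_one, map_mul, aeval_X]
  have hWm : ∀ (q : ℕ) (m : σ →₀ ℕ), m.degree = d → d - m j0 ≤ q →
      W m = aeval x (monomial m (1 : ℂ)) * u := by
    intro q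
    induction q with
    | zero =>
      intro m hm hq
      have h3 : m = Finsupp.single j0 d := by
        have h4 : d ≤ m j0 := by omega
        have h5 : Finsupp.single j0 (m j0) ≤ m := by
          rw [Finsupp.single_le_iff]
        have h6 : (m - Finsupp.single j0 (m j0)) + Finsupp.single j0 (m j0) = m :=
          tsub_add_cancel_of_le h5
        have h7 := congrArg Finsupp.degree h6
        rw [map_add, Finsupp.degree_single, hm] at h7
        have h8 : (m - Finsupp.single j0 (m j0)).degree = 0 := by omega
        rw [Finsupp.degree_eq_zero_iff] at h8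
        rw [h8, zero_add] at h6
        have h9 : m j0 = d := by
          have h10 : (m - Finsupp.single j0 (m j0)).degree = 0 := by rw [h8]; simp
          omega
        rw [← h6, h9]
      rw [h3, hu, aeval_monomial, map_one, one_mul, Finsupp.prod_single_index (by simp)]
      field_simp
    | succ q ih =>
      intro m hm hq
      by_cases hq' : d - m j0 ≤ q
      · exact ih m hm hq'
      have hlt : m j0 < d := by omega
      obtain ⟨i, hi, him⟩ : ∃ i, i ≠ j0 ∧ 1 ≤ m i := by
        by_contra hcon
        push Not at hcon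
        have h3 : m.degree = m j0 := by
          rw [Finsupp.degree_eq_sum, Finset.sum_eq_single j0]
          · intro i _ hi
            have := hcon i hi
            omega
          · intro h0
            exact absurd (Finset.mem_univ j0) h0
        omega
      have h3 : (m - Finsupp.single i 1) + Finsupp.single i 1 = m :=
        tsub_add_cancel_of_le (by rw [Finsupp.single_le_iff]; exact him)
      set P := m - Finsupp.single i 1 with hP
      have hPd : P.degree + 1 = d := by
        have h4 := congrArg Finsupp.degree h3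
        rw [map_add, Finsupp.degree_single, hm] at h4
        exact h4
      have h5 := h2 i P hPd
      have h6 := ih (P + Finsupp.single j0 1) (by rw [map_add, Finsupp.degree_single, hPd]) (by
        have h7 : (P + Finsupp.single j0 1 : σ →₀ ℕ) j0 = m j0 + 1 := by
          rw [← h3]
          simp [hi]
        omega)
      rw [h6, hmon] at h5
      have h7 : aeval x (monomial m (1 : ℂ)) = aeval x (monomial P (1 : ℂ)) * x i := by
        rw [← hmon, h3]
      rw [h3] at h5
      rw [h7]
      apply mul_left_cancel₀ hx0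
      rw [h5]
      ring
  refine ⟨-u, fun k => ?_⟩
  have h3 := hw _ (S1_adm hF hd hsupp j0 k j0)
  have h4 : ∀ k', w k' * secv F.support (S1 F j0 k j0) x y k' =
      x j0 * ((∑ m ∈ F.support, algebraMap ℂ E (coeff m (X j0 * pderiv k F)) *
        (w k' * y m k')) + if k' = k then w k' * x j0 else 0) := by
    intro k'
    rw [secv_S1]
    rw [mul_left_comm, mul_add, Finset.mul_sum]
    congr 2
    · refine Finset.sum_congr rfl fun m _ => ?_
      ring
    · split_ifs <;> ring
  simp only [h4] at h3
  rw [← Finset.mul_sum, Finset.sum_add_distrib, Finset.sum_comm] at h3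
  have h5 := (mul_eq_zero.mp h3).resolve_left hx0
  simp only [Finset.sum_ite_eq', Finset.mem_univ, if_true] at h5
  have h6 : ∀ m ∈ F.support, ∑ k', algebraMap ℂ E (coeff m (X j0 * pderiv k F)) *
      (w k' * y m k') = algebraMap ℂ E (coeff m (X j0 * pderiv k F)) *
        aeval x (monomial m (1 : ℂ)) * u := by
    intro m hm
    have hmd : m.degree = d := by
      by_contra h0
      rw [mem_support_iff] at hm
      exact hm (hF.coeff_eq_zero h0)
    rw [← Finset.mul_sum, mul_assoc, ← hWm d m hmd (by omega)]
  rw [Finset.sum_congr rfl h6, ← Finset.sum_mul] at h5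
  have h7 : ∑ m ∈ F.support, algebraMap ℂ E (coeff m (X j0 * pderiv k F)) *
      aeval x (monomial m (1 : ℂ)) = x j0 * aeval x (pderiv k F) := by
    have h8 := congrArg (aeval x) (S1_adm hF hd hsupp j0 k j0).rel
    simp only [S1, ite_mul, zero_mul, Finset.sum_ite_eq', Finset.mem_univ, if_true] at h8
    simp only [map_sum, map_mul, aeval_C, aeval_X] at h8
    apply mul_left_cancel₀ hx0
    rw [Finset.mul_sum]
    rw [← mul_assoc, ← h8]
    refine Finset.sum_congr rfl fun m _ => ?_
    ring
  rw [h7] at h5
  apply mul_right_cancel₀ hx0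
  linear_combination h5

end Pool.Agent.TH182.VG
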