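import Mathlib
import Pool.Agent.H598R2.Deriv
import Pool.Agent.TH182.VG.Span

/-!
Derivations: existence and uniqueness.
-/

set_option autoImplicit false

namespace Pool.Agent.TH182.VG

open MvPolynomial TensorProduct

section Alg

variable {A L : Type*} [Field A] [Field L] {φ : A →+* L} {δ : A → L}

theorem IsDer.pow {A L : Type*} [CommRing A] [CommRing L] {φ : A →+* L} {δ : A → L}
    (h : IsDer φ δ) (x : A) (n : ℕ) : δ (x ^ n) = n * φ x ^ (n - 1) * δ x := by
  induction n with
  | zero => simp [h.one]
  | succ n ih =>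
    rw [pow_succ, h.mul, ih, map_pow]
    rcases n with _ | n
    · simp
    · simp only [Nat.add_sub_cancel]
      push_cast
      ring

theorem IsDer.inv (h : IsDer φ δ) {x : A} (hx : x ≠ 0) : δ x⁻¹ = -(φ x)⁻¹ ^ 2 * δ x := by
  have h1 := h.mul x x⁻¹
  rw [mul_inv_cancel₀ hx, h.one, map_inv₀] at h1
  have h2 : φ x ≠ 0 := (map_ne_zero φ).mpr hx
  apply mul_left_cancel₀ h2
  have h3 : φ x * (-(φ x)⁻¹ ^ 2 * δ x) = -((φ x)⁻¹ * δ x) := by
    field_simp
  rw [h3]
  linear_combination -h1

/-- univariate chain rule -/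
theorem IsDer.chain_poly {k : Type*} [CommRing k] [Algebra k A] (h : IsDer φ δ)
    (hc : ∀ c : k, δ (algebraMap k A c) = 0) (x : A) (P : Polynomial k) :
    δ (Polynomial.aeval x P) = φ (Polynomial.aeval x P.derivative) * δ x := by
  induction P using Polynomial.induction_on' with
  | add P Q hP hQ => rw [map_add, h.add, hP, hQ, Polynomial.derivative_add, map_add, map_add]; ring
  | monomial n c =>
    rw [Polynomial.aeval_monomial, h.mul, hc, h.pow, Polynomial.derivative_monomial,
      Polynomial.aeval_monomial]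
    simp only [map_mul, map_pow, map_natCast]
    ring

theorem IsDer.alg_zero {k : Type*} [Field k] [CharZero k] [Algebra k A] (h : IsDer φ δ)
    (hc : ∀ c : k, δ (algebraMap k A c) = 0) {x : A} (hx : IsAlgebraic k x) : δ x = 0 := by
  have h1 := h.chain_poly hc x (minpoly k x)
  rw [minpoly.aeval, h.zero] at h1
  have h2 : Polynomial.aeval x (minpoly k x).derivative ≠ 0 :=
    (minpoly.irreducible hx.isIntegral).separable.aeval_derivative_ne_zero (minpoly.aeval k x)
  have h3 : φ (Polynomial.aeval x (minpoly k x).derivative) ≠ 0 := (map_ne_zero φ).mpr h2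
  exact (mul_eq_zero.mp h1.symm).resolve_left h3

/-- the constants of a derivation -/
def kerF {k : Type*} [Field k] [Algebra k A] (h : IsDer φ δ)
    (hc : ∀ c : k, δ (algebraMap k A c) = 0) : IntermediateField k A where
  carrier := {x | δ x = 0}
  mul_mem' := by
    intro a b ha hb
    change δ (a * b) = 0
    have ha' : δ a = 0 := ha
    have hb' : δ b = 0 := hb
    rw [h.mul, ha', hb', mul_zero, mul_zero, add_zero]
  one_mem' := h.one
  add_mem' := by
    intro a b ha hb
    change δ (a + b) = 0
    have ha' : δ a = 0 := ha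
    have hb' : δ b = 0 := hb
    rw [h.add, ha', hb', add_zero]
  zero_mem' := h.zero
  algebraMap_mem' := hc
  inv_mem' := by
    intro a ha
    change δ a⁻¹ = 0
    have ha' : δ a = 0 := ha
    by_cases h0 : a = 0
    · rw [h0, inv_zero, h.zero]
    · rw [h.inv h0, ha', mul_zero]

/-- uniqueness -/
theorem IsDer.zero_of_adjoin {k : Type*} [Field k] [CharZero k] [Algebra k A] (h : IsDer φ δ)
    (hc : ∀ c : k, δ (algebraMap k A c) = 0) (s : Set A) (hs : ∀ x ∈ s, δ x = 0) {x : A}
    (hx : IsAlgebraic (IntermediateField.adjoin k s) x) : δ x = 0 := by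
  have h1 : IntermediateField.adjoin k s ≤ kerF h hc := by
    rw [IntermediateField.adjoin_le_iff]
    exact hs
  have : CharZero (IntermediateField.adjoin k s) :=
    charZero_of_injective_algebraMap (algebraMap k _).injective
  exact h.alg_zero (k := IntermediateField.adjoin k s) (fun c => h1 c.2) hx

end Alg

theorem isDer_of_derivation {A : Type*} [CommRing A] [Algebra ℚ A] (D : Derivation ℚ A A) :
    IsDer (RingHom.id A) (fun x => D x) where
  add := fun a b => map_add D a b
  mul := fun a b => by
    simp only [D.leibniz, RingHom.id_apply, smul_eq_mul]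

/-- derivations extend to formally etale algebras -/
theorem extend_der {A L : Type} [CommRing A] [CommRing L] [Algebra A L] [Algebra ℚ A]
    [Algebra ℚ L] [IsScalarTower ℚ A L] [Algebra.FormallyEtale A L] (d : Derivation ℚ A A) :
    ∃ D : Derivation ℚ L L, ∀ a, D (algebraMap A L a) = algebraMap A L (d a) := by
  let d' : Derivation ℚ A L := (Algebra.linearMap A L).compDer d
  let E := KaehlerDifferential.tensorKaehlerEquivOfFormallyEtale ℚ A L
  let φ := d'.liftKaehlerDifferential.liftBaseChange L
  refine ⟨(φ ∘ₗ E.symm.toLinearMap).compDer (KaehlerDifferential.D ℚ L), fun a => ?_⟩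
  have h1 := KaehlerDifferential.tensorKaehlerEquivOfFormallyEtale_symm_D_algebraMap ℚ A L a
  change φ (E.symm (KaehlerDifferential.D ℚ L (algebraMap A L a))) = _
  rw [h1]
  simp only [φ, LinearMap.liftBaseChange_tmul, one_smul]
  exact d'.liftKaehlerDifferential_comp_D _

/-- dual derivations of the complex numbers and of an extension field -/
theorem exists_dual {ι : Type} [DecidableEq ι] {a : ι → ℂ} (ha : AlgebraicIndependent ℚ a)
    (E : Type) [Field E] [CharZero E] [Algebra ℂ E] (i : ι) :
    ∃ (D : Derivation ℚ ℂ ℂ) (D' : Derivation ℚ E E),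
      (∀ c, D' (algebraMap ℂ E c) = algebraMap ℂ E (D c)) ∧
      ∀ j, D (a j) = if j = i then 1 else 0 := by
  classical
  obtain ⟨s, hs, hsb⟩ := exists_isTranscendenceBasis_superset (R := ℚ) ha.to_subtype_range
  let v : s → E := fun x => algebraMap ℂ E x
  have hv : AlgebraicIndependent ℚ v := by
    have h1 := hsb.1.map' (f := IsScalarTower.toAlgHom ℚ ℂ E) (algebraMap ℂ E).injective
    exact h1
  obtain ⟨t, ht, htb⟩ := exists_isTranscendenceBasis_superset (R := ℚ) hv.to_subtype_range
  have hai : a i ∈ s := hs ⟨i, rfl⟩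
  have hvt : ∀ x : s, algebraMap ℂ E x ∈ t := fun x => ht ⟨x, rfl⟩
  obtain ⟨D, hD⟩ := Pool.Agent.H598R2.exists_derivation hsb ⟨a i, hai⟩
  obtain ⟨D', hD'⟩ := Pool.Agent.H598R2.exists_derivation htb ⟨algebraMap ℂ E (a i), hvt ⟨a i, hai⟩⟩
  refine ⟨D, D', ?_, ?_⟩
  · intro c
    let δ : ℂ → E := fun c => D' (algebraMap ℂ E c) - algebraMap ℂ E (D c)
    have hδ : IsDer (algebraMap ℂ E) δ := by
      constructor
      · intro x y
        simp only [δ, map_add]
        ring
      · intro x y
        simp only [δ, map_mul, Derivation.leibniz, map_add, smul_eq_mul]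
        ring
    have h1 : δ c = 0 := by
      have : Algebra.IsAlgebraic (IntermediateField.adjoin ℚ (Set.range ((↑) : s → ℂ))) ℂ :=
        hsb.isAlgebraic_field
      have hq : ∀ c : ℚ, δ (algebraMap ℚ ℂ c) = 0 := by
        intro c
        simp only [δ]
        rw [← IsScalarTower.algebraMap_apply ℚ ℂ E, D'.map_algebraMap, D.map_algebraMap, map_zero,
          sub_zero]
      apply hδ.zero_of_adjoin (k := ℚ) hq (Set.range ((↑) : s → ℂ)) ?_
        (Algebra.IsAlgebraic.isAlgebraic c)
      · rintro _ ⟨x, rfl⟩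
        simp only [δ]
        rw [hD x]
        have h2 := hD' ⟨algebraMap ℂ E x, hvt x⟩
        change D' (algebraMap ℂ E x) = _ at h2
        rw [h2]
        have h3 : ((⟨algebraMap ℂ E x, hvt x⟩ : t) = ⟨algebraMap ℂ E (a i), hvt ⟨a i, hai⟩⟩) ↔
            x = ⟨a i, hai⟩ := by
          rw [Subtype.mk.injEq]
          constructor
          · intro h
            exact Subtype.ext ((algebraMap ℂ E).injective h)
          · intro h
            rw [h]
        by_cases h4 : x = ⟨a i, hai⟩
        · rw [if_pos (h3.mpr h4), if_pos h4, map_one, sub_self]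
        · rw [if_neg (fun h => h4 (h3.mp h)), if_neg h4, map_zero, sub_self]
    exact sub_eq_zero.mp h1
  · intro j
    have h1 := hD ⟨a j, hs ⟨j, rfl⟩⟩
    change D (a j) = _ at h1
    rw [h1]
    have h2 : ((⟨a j, hs ⟨j, rfl⟩⟩ : s) = ⟨a i, hai⟩) ↔ j = i := by
      rw [Subtype.mk.injEq]
      exact ha.injective.eq_iff
    by_cases h3 : j = i
    · rw [if_pos (h2.mpr h3), if_pos h3]
    · rw [if_neg (fun h => h3 (h2.mp h)), if_neg h3]

/-- the same with plain functions -/
theorem exists_dual' {ι : Type} [DecidableEq ι] {a : ι → ℂ} (ha : AlgebraicIndependent ℚ a)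
    (E : Type) [Field E] [CharZero E] [Algebra ℂ E] (i : ι) :
    ∃ (D : Derivation ℚ ℂ ℂ) (D' : E → E), IsDer (RingHom.id E) D' ∧
      (∀ c, D' (algebraMap ℂ E c) = algebraMap ℂ E (D c)) ∧
      ∀ j, D (a j) = if j = i then 1 else 0 := by
  obtain ⟨D, D', h1, h2⟩ := exists_dual ha E i
  exact ⟨D, fun x => D' x, isDer_of_derivation D', h1, h2⟩

/-- coefficientwise derivation of power series -/
noncomputable def psDer (D : Derivation ℚ ℂ ℂ) : Derivation ℚ (PowerSeries ℂ) (PowerSeries ℂ) :=
  Derivation.mk'
    { toFun := fun Y => PowerSeries.mk fun n => D (PowerSeries.coeff n Y)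
      map_add' := fun Y Z => by
        ext n
        simp [PowerSeries.coeff_mk]
      map_smul' := fun c Y => by
        ext n
        rw [PowerSeries.coeff_mk]
        simp only [RingHom.id_apply, map_rat_smul, PowerSeries.coeff_mk] }
    (fun Y Z => by
      change PowerSeries.mk (fun n => D (PowerSeries.coeff n (Y * Z))) = Y *
        PowerSeries.mk (fun n => D (PowerSeries.coeff n Z)) + Z *
        PowerSeries.mk (fun n => D (PowerSeries.coeff n Y))
      rw [mul_comm Z]
      ext n
      rw [map_add, PowerSeries.coeff_mk, PowerSeries.coeff_mul, PowerSeries.coeff_mul,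
        PowerSeries.coeff_mul, map_sum, ← Finset.sum_add_distrib]
      refine Finset.sum_congr rfl fun ij _ => ?_
      rw [D.leibniz, PowerSeries.coeff_mk, PowerSeries.coeff_mk, smul_eq_mul, smul_eq_mul]
      ring)

theorem psDer_C (D : Derivation ℚ ℂ ℂ) (c : ℂ) : psDer D (PowerSeries.C c) = PowerSeries.C (D c) := by
  ext n
  change PowerSeries.coeff n (PowerSeries.mk fun n => D (PowerSeries.coeff n (PowerSeries.C c))) = _
  rw [PowerSeries.coeff_mk, PowerSeries.coeff_C, PowerSeries.coeff_C]
  split_ifs
  · rfl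
  · exact map_zero D

end Pool.Agent.TH182.VG
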