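import Mathlib
import Pool.Agent.TH143.EL.Fld

/-!
Expansions of meromorphic functions.
-/

set_option autoImplicit false

namespace Pool.Agent.TH182.VG

open Filter Topology Set
open Pool.Agent.TH143.EL

/-- Taylor series -/
noncomputable def Tay (z0 : ℂ) (f : ℂ → ℂ) : PowerSeries ℂ :=
  PowerSeries.mk fun n => iteratedDeriv n f z0 / (n.factorial : ℂ)

theorem Tay_coeff (z0 : ℂ) (f : ℂ → ℂ) (n : ℕ) :
    PowerSeries.coeff n (Tay z0 f) = iteratedDeriv n f z0 / (n.factorial : ℂ) :=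
  PowerSeries.coeff_mk _ _

theorem Tay_congr {z0 : ℂ} {f g : ℂ → ℂ} (h : f =ᶠ[𝓝 z0] g) : Tay z0 f = Tay z0 g := by
  ext n
  rw [Tay_coeff, Tay_coeff, h.iteratedDeriv_eq n]

theorem Tay_add {z0 : ℂ} {f g : ℂ → ℂ} (hf : AnalyticAt ℂ f z0) (hg : AnalyticAt ℂ g z0) :
    Tay z0 (f + g) = Tay z0 f + Tay z0 g := by
  ext n
  rw [map_add, Tay_coeff, Tay_coeff, Tay_coeff, iteratedDeriv_add hf.contDiffAt hg.contDiffAt]
  ring

theorem Tay_mul {z0 : ℂ} {f g : ℂ → ℂ} (hf : AnalyticAt ℂ f z0) (hg : AnalyticAt ℂ g z0) :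
    Tay z0 (f * g) = Tay z0 f * Tay z0 g := by
  ext n
  simp only [Tay_coeff, iteratedDeriv_mul hf.contDiffAt hg.contDiffAt, PowerSeries.coeff_mul,
    Finset.Nat.sum_antidiagonal_eq_sum_range_succ_mk]
  rw [Finset.sum_div]
  refine Finset.sum_congr rfl fun i hi => ?_
  rw [Nat.cast_choose _ (Nat.lt_succ_iff.mp (Finset.mem_range.mp hi))]
  have h1 : (n.factorial : ℂ) ≠ 0 := Nat.cast_ne_zero.mpr (Nat.factorial_ne_zero _)
  have h2 : (i.factorial : ℂ) ≠ 0 := Nat.cast_ne_zero.mpr (Nat.factorial_ne_zero _)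
  have h3 : ((n - i).factorial : ℂ) ≠ 0 := Nat.cast_ne_zero.mpr (Nat.factorial_ne_zero _)
  field_simp

theorem Tay_const (z0 c : ℂ) : Tay z0 (fun _ => c) = PowerSeries.C c := by
  ext n
  rw [Tay_coeff, PowerSeries.coeff_C, iteratedDeriv_const]
  by_cases hn : n = 0
  · simp [hn]
  · simp [hn]

theorem Tay_sub (z0 : ℂ) : Tay z0 (fun z => z - z0) = PowerSeries.X := by
  ext n
  rw [Tay_coeff, PowerSeries.coeff_X]
  match n with
  | 0 => simp
  | 1 => simp [iteratedDeriv_one]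
  | n + 2 =>
    have h1 : iteratedDeriv (n + 2) (fun z => z - z0) z0 = 0 := by
      rw [iteratedDeriv_succ', iteratedDeriv_succ']
      have h2 : deriv (fun z : ℂ => z - z0) = fun _ => 1 := by
        funext z
        simp
      rw [h2]
      simp
    rw [h1]
    simp

theorem Tay_pow (z0 : ℂ) (n : ℕ) : Tay z0 (fun z => (z - z0) ^ n) = PowerSeries.X ^ n := by
  induction n with
  | zero =>
    have : (fun z : ℂ => (z - z0) ^ 0) = fun _ => 1 := by funext z; simp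
    rw [this, Tay_const, map_one, pow_zero]
  | succ n ih =>
    have : (fun z : ℂ => (z - z0) ^ (n + 1)) = (fun z => (z - z0) ^ n) * fun z => z - z0 := by
      funext z
      simp [pow_succ]
    rw [this, Tay_mul (by fun_prop) (by fun_prop), ih, Tay_sub, pow_succ]

/-- division by a power of the coordinate -/
theorem Tay_div {z0 : ℂ} {f : ℂ → ℂ} (hf : AnalyticAt ℂ f z0) {n : ℕ} {Y : PowerSeries ℂ}
    (h : Tay z0 f = PowerSeries.X ^ n * Y) :
    ∃ u : ℂ → ℂ, AnalyticAt ℂ u z0 ∧ (∀ᶠ z in 𝓝 z0, f z = (z - z0) ^ n * u z) ∧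
      Tay z0 u = Y := by
  have h1 : (n : ℕ∞) ≤ analyticOrderAt f z0 := by
    rw [natCast_le_analyticOrderAt_iff_iteratedDeriv_eq_zero hf]
    intro i hi
    have h2 := congrArg (PowerSeries.coeff i) h
    rw [Tay_coeff, PowerSeries.coeff_X_pow_mul', if_neg (by omega)] at h2
    have h3 : (i.factorial : ℂ) ≠ 0 := Nat.cast_ne_zero.mpr (Nat.factorial_ne_zero _)
    exact (div_eq_zero_iff.mp h2).resolve_right h3
  obtain ⟨u, hu, hu'⟩ := (natCast_le_analyticOrderAt hf).1 h1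
  have hu2 : ∀ᶠ z in 𝓝 z0, f z = (z - z0) ^ n * u z := by simpa only [smul_eq_mul] using hu'
  refine ⟨u, hu, hu2, ?_⟩
  have h4 : Tay z0 f = PowerSeries.X ^ n * Tay z0 u := by
    have h5 : f =ᶠ[𝓝 z0] (fun z => (z - z0) ^ n) * u := hu2
    rw [Tay_congr h5, Tay_mul (by fun_prop) hu, Tay_pow]
  rw [h] at h4
  exact (mul_left_cancel₀ (pow_ne_zero n PowerSeries.X_ne_zero) h4).symm

/-- the field of fractions of the ring of power series -/
abbrev LL : Type := FractionRing (PowerSeries ℂ)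

/-- the embedding of the ring of power series -/
noncomputable def em : PowerSeries ℂ →+* LL := algebraMap _ _

theorem em_inj : Function.Injective em := IsFractionRing.injective (PowerSeries ℂ) LL

theorem em_C (c : ℂ) : em (PowerSeries.C c) = algebraMap ℂ LL c := by
  rw [IsScalarTower.algebraMap_apply ℂ (PowerSeries ℂ) LL]
  rfl

/-- `Y` is the expansion of `f` -/
def IsT (z0 : ℂ) (f : ℂ → ℂ) (Y : LL) : Prop :=
  ∃ (n : ℕ) (g : ℂ → ℂ), AnalyticAt ℂ g z0 ∧ (∀ᶠ z in 𝓝[≠] z0, (z - z0) ^ n * f z = g z) ∧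
    em (PowerSeries.X ^ n) * Y = em (Tay z0 g)

theorem em_X_ne (n : ℕ) : em (PowerSeries.X ^ n) ≠ 0 := by
  rw [Ne, map_eq_zero_iff em em_inj]
  exact pow_ne_zero n PowerSeries.X_ne_zero

theorem eq_nhds {z0 : ℂ} {f g : ℂ → ℂ} (hf : AnalyticAt ℂ f z0) (hg : AnalyticAt ℂ g z0)
    (h : ∀ᶠ z in 𝓝[≠] z0, f z = g z) : f =ᶠ[𝓝 z0] g :=
  (hf.frequently_eq_iff_eventually_eq hg).mp h.frequently

theorem IsT.unique {z0 : ℂ} {f f' : ℂ → ℂ} {Y Y' : LL} (hff : ∀ᶠ z in 𝓝[≠] z0, f z = f' z)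
    (h : IsT z0 f Y) (h' : IsT z0 f' Y') : Y = Y' := by
  obtain ⟨n, g, hg, hgf, hY⟩ := h
  obtain ⟨n', g', hg', hgf', hY'⟩ := h'
  have h1 : (fun z => (z - z0) ^ n') * g =ᶠ[𝓝 z0] (fun z => (z - z0) ^ n) * g' := by
    apply eq_nhds (AnalyticAt.mul (by fun_prop) hg) (AnalyticAt.mul (by fun_prop) hg')
    filter_upwards [hgf, hgf', hff] with z h1 h2 h3
    simp only [Pi.mul_apply]
    rw [← h1, ← h2, h3]
    ring
  have h2 := Tay_congr h1
  rw [Tay_mul (by fun_prop) hg, Tay_mul (by fun_prop) hg', Tay_pow, Tay_pow] at h2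
  have h3 := congrArg em h2
  rw [map_mul, map_mul, ← hY, ← hY'] at h3
  apply mul_left_cancel₀ (em_X_ne n)
  apply mul_left_cancel₀ (em_X_ne n')
  rw [h3]
  ring

theorem exists_isT {z0 : ℂ} {f : ℂ → ℂ} (hf : MeromorphicAt f z0) : ∃ Y, IsT z0 f Y := by
  obtain ⟨n, hn⟩ := hf
  refine ⟨(em (PowerSeries.X ^ n))⁻¹ * em (Tay z0 fun z => (z - z0) ^ n • f z), n, _, hn,
    Eventually.of_forall fun z => rfl, ?_⟩
  rw [mul_inv_cancel_left₀ (em_X_ne n)]

theorem IsT.add {z0 : ℂ} {f f' : ℂ → ℂ} {Y Y' : LL} (h : IsT z0 f Y) (h' : IsT z0 f' Y') :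
    IsT z0 (f + f') (Y + Y') := by
  obtain ⟨n, g, hg, hgf, hY⟩ := h
  obtain ⟨n', g', hg', hgf', hY'⟩ := h'
  refine ⟨n + n', (fun z => (z - z0) ^ n') * g + (fun z => (z - z0) ^ n) * g',
    (AnalyticAt.mul (by fun_prop) hg).add (AnalyticAt.mul (by fun_prop) hg'), ?_, ?_⟩
  · filter_upwards [hgf, hgf'] with z h1 h2
    simp only [Pi.mul_apply, Pi.add_apply]
    rw [← h1, ← h2]
    ring
  · rw [Tay_add (AnalyticAt.mul (by fun_prop) hg) (AnalyticAt.mul (by fun_prop) hg'),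
      Tay_mul (by fun_prop) hg, Tay_mul (by fun_prop) hg', Tay_pow, Tay_pow, map_add, map_mul,
      map_mul, ← hY, ← hY', pow_add, map_mul]
    ring

theorem IsT.mul {z0 : ℂ} {f f' : ℂ → ℂ} {Y Y' : LL} (h : IsT z0 f Y) (h' : IsT z0 f' Y') :
    IsT z0 (f * f') (Y * Y') := by
  obtain ⟨n, g, hg, hgf, hY⟩ := h
  obtain ⟨n', g', hg', hgf', hY'⟩ := h'
  refine ⟨n + n', g * g', hg.mul hg', ?_, ?_⟩
  · filter_upwards [hgf, hgf'] with z h1 h2
    simp only [Pi.mul_apply]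
    rw [← h1, ← h2]
    ring
  · rw [Tay_mul hg hg', map_mul, ← hY, ← hY', pow_add, map_mul]
    ring

theorem isT_an {z0 : ℂ} {f g : ℂ → ℂ} (hg : AnalyticAt ℂ g z0) (h : ∀ᶠ z in 𝓝[≠] z0, f z = g z) :
    IsT z0 f (em (Tay z0 g)) := by
  refine ⟨0, g, hg, ?_, ?_⟩
  · filter_upwards [h] with z hz
    rw [pow_zero, one_mul, hz]
  · rw [pow_zero, map_one, one_mul]

/-- the expansion on functions -/
noncomputable def T0 (z0 : ℂ) : MerS →ₐ[ℂ] LL where
  toFun f := Classical.choose (exists_isT (z0 := z0) ((f.2 : Meromorphic f.1) z0))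
  map_one' := by
    refine IsT.unique (Eventually.of_forall fun _ => rfl) (Classical.choose_spec (exists_isT
      (z0 := z0) (((1 : MerS).2 : Meromorphic (1 : MerS).1) z0))) ?_
    have h1 := isT_an (z0 := z0) (f := (1 : MerS).1) (g := fun _ => 1) analyticAt_const
      (Eventually.of_forall fun _ => rfl)
    rwa [Tay_const, map_one, map_one] at h1
  map_mul' f g := by
    exact IsT.unique (Eventually.of_forall fun _ => rfl) (Classical.choose_spec (exists_isT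
      (z0 := z0) (((f * g : MerS).2 : Meromorphic (f * g : MerS).1) z0)))
      ((Classical.choose_spec (exists_isT (z0 := z0) ((f.2 : Meromorphic f.1) z0))).mul
      (Classical.choose_spec (exists_isT (z0 := z0) ((g.2 : Meromorphic g.1) z0))))
  map_zero' := by
    refine IsT.unique (Eventually.of_forall fun _ => rfl) (Classical.choose_spec (exists_isT
      (z0 := z0) (((0 : MerS).2 : Meromorphic (0 : MerS).1) z0))) ?_
    have h1 := isT_an (z0 := z0) (f := (0 : MerS).1) (g := fun _ => 0) analyticAt_const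
      (Eventually.of_forall fun _ => rfl)
    rwa [Tay_const, map_zero, map_zero] at h1
  map_add' f g := by
    exact IsT.unique (Eventually.of_forall fun _ => rfl) (Classical.choose_spec (exists_isT
      (z0 := z0) (((f + g : MerS).2 : Meromorphic (f + g : MerS).1) z0)))
      ((Classical.choose_spec (exists_isT (z0 := z0) ((f.2 : Meromorphic f.1) z0))).add
      (Classical.choose_spec (exists_isT (z0 := z0) ((g.2 : Meromorphic g.1) z0))))
  commutes' c := by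
    refine IsT.unique (Eventually.of_forall fun _ => rfl) (Classical.choose_spec (exists_isT
      (z0 := z0) (((algebraMap ℂ MerS c).2 : Meromorphic (algebraMap ℂ MerS c).1) z0))) ?_
    have h1 := isT_an (z0 := z0) (f := (algebraMap ℂ MerS c).1) (g := fun _ => c) analyticAt_const
      (Eventually.of_forall fun _ => rfl)
    rwa [Tay_const, em_C] at h1

theorem T0_spec (z0 : ℂ) (f : MerS) : IsT z0 f.1 (T0 z0 f) :=
  Classical.choose_spec (exists_isT (z0 := z0) ((f.2 : Meromorphic f.1) z0))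

/-- the expansion -/
noncomputable def TT (z0 : ℂ) : MK →ₐ[ℂ] LL := Ideal.Quotient.liftₐ MJ (T0 z0) (by
  intro f hf
  rw [mem_MJ] at hf
  refine IsT.unique (codis_ev hf z0) (T0_spec z0 f) ?_
  have h1 := isT_an (z0 := z0) (f := fun _ => 0) (g := fun _ => 0) analyticAt_const
    (Eventually.of_forall fun _ => rfl)
  rwa [Tay_const, map_zero, map_zero] at h1)

theorem TT_spec (z0 : ℂ) {f : ℂ → ℂ} (hf : Meromorphic f) : IsT z0 f (TT z0 (cl f hf)) :=
  T0_spec z0 ⟨f, hf⟩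

theorem TT_inj (z0 : ℂ) : Function.Injective (TT z0) := (TT z0).toRingHom.injective

theorem TT_an {z0 : ℂ} {f g : ℂ → ℂ} (hf : Meromorphic f) (hg : AnalyticAt ℂ g z0)
    (h : ∀ᶠ z in 𝓝[≠] z0, f z = g z) : TT z0 (cl f hf) = em (Tay z0 g) :=
  IsT.unique (Eventually.of_forall fun _ => rfl) (TT_spec z0 hf) (isT_an hg h)

theorem TT_reg {z0 : ℂ} {f : ℂ → ℂ} (hf : Meromorphic f) {Y : PowerSeries ℂ}
    (h : TT z0 (cl f hf) = em Y) : ∃ u : ℂ → ℂ, AnalyticAt ℂ u z0 ∧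
      (∀ᶠ z in 𝓝[≠] z0, f z = u z) ∧ Tay z0 u = Y := by
  obtain ⟨n, g, hg, hgf, hY⟩ := TT_spec z0 hf
  rw [h, ← map_mul] at hY
  obtain ⟨u, hu, hgu, hTu⟩ := Tay_div hg (em_inj hY).symm
  refine ⟨u, hu, ?_, hTu⟩
  filter_upwards [hgf, hgu.filter_mono nhdsWithin_le_nhds, self_mem_nhdsWithin] with z h1 h2 h3
  apply mul_left_cancel₀ (pow_ne_zero n (sub_ne_zero.mpr h3))
  rw [h1, h2]

/-- regular elements -/
def Reg (z0 : ℂ) (x : MK) : Prop := ∃ Y : PowerSeries ℂ, TT z0 x = em Y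

theorem Reg.MD {z0 : ℂ} {x : MK} (h : Reg z0 x) : Reg z0 (MD x) := by
  obtain ⟨f, hf, rfl⟩ := cl_surj x
  obtain ⟨Y, hY⟩ := h
  obtain ⟨u, hu, hfu, -⟩ := TT_reg hf hY
  refine ⟨Tay z0 (deriv u), ?_⟩
  rw [MD_cl]
  apply TT_an _ hu.deriv
  have h1 : ∀ᶠ z in 𝓝[≠] z0, ∀ᶠ w in 𝓝 z, f w = u w := eventually_nhdsNE_eventually_nhds_iff.mpr hfu
  filter_upwards [h1] with z hz
  exact Filter.EventuallyEq.deriv_eq hz

end Pool.Agent.TH182.VG
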