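import Mathlib
import Pool.Agent.TH143.EL.Ell
import Pool.Agent.TH182.VG.Tay
import Pool.Agent.TH182.VG.Der

/-!
The field of elliptic functions.
-/

set_option autoImplicit false

namespace Pool.Agent.TH182.VG

open Filter Topology Set
open Pool.Agent.TH143.EL

/-- the field of elliptic functions with periods `ω₁`, `ω₂` -/
noncomputable def EF (ω₁ ω₂ : ℂ) : IntermediateField ℂ MK where
  carrier := {x | ∃ (f : ℂ → ℂ) (hf : Meromorphic f), (∀ z, f (z + ω₁) = f z) ∧
    (∀ z, f (z + ω₂) = f z) ∧ cl f hf = x}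
  mul_mem' := by
    rintro _ _ ⟨f, hf, h1, h2, rfl⟩ ⟨g, hg, h3, h4, rfl⟩
    exact ⟨f * g, hf.mul hg, fun z => by simp only [Pi.mul_apply, h1, h3],
      fun z => by simp only [Pi.mul_apply, h2, h4], rfl⟩
  one_mem' := ⟨fun _ => 1, Meromorphic.const 1, fun _ => rfl, fun _ => rfl, by
    rw [cl_const, map_one]⟩
  add_mem' := by
    rintro _ _ ⟨f, hf, h1, h2, rfl⟩ ⟨g, hg, h3, h4, rfl⟩
    exact ⟨f + g, hf.add hg, fun z => by simp only [Pi.add_apply, h1, h3],
      fun z => by simp only [Pi.add_apply, h2, h4], rfl⟩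
  zero_mem' := ⟨fun _ => 0, Meromorphic.const 0, fun _ => rfl, fun _ => rfl, by
    rw [cl_const, map_zero]⟩
  algebraMap_mem' := fun c => ⟨fun _ => c, Meromorphic.const c, fun _ => rfl, fun _ => rfl,
    cl_const c⟩
  inv_mem' := by
    rintro _ ⟨f, hf, h1, h2, rfl⟩
    exact ⟨f⁻¹, hf.inv, fun z => by simp only [Pi.inv_apply, h1],
      fun z => by simp only [Pi.inv_apply, h2], (cl_inv hf).symm⟩

variable {ω₁ ω₂ : ℂ}

theorem mem_EF {x : MK} : x ∈ EF ω₁ ω₂ ↔ ∃ (f : ℂ → ℂ) (hf : Meromorphic f),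
    (∀ z, f (z + ω₁) = f z) ∧ (∀ z, f (z + ω₂) = f z) ∧ cl f hf = x := Iff.rfl

theorem MD_mem {x : MK} (hx : x ∈ EF ω₁ ω₂) : MD x ∈ EF ω₁ ω₂ := by
  obtain ⟨f, hf, h1, h2, rfl⟩ := hx
  rw [MD_cl]
  refine ⟨deriv f, hf.deriv, fun z => ?_, fun z => ?_, rfl⟩
  · rw [← deriv_comp_add_const]
    congr 1
    funext w
    exact h1 w
  · rw [← deriv_comp_add_const]
    congr 1
    funext w
    exact h2 w

/-- the derivative on the field of elliptic functions -/
noncomputable def ED (x : EF ω₁ ω₂) : EF ω₁ ω₂ := ⟨MD x, MD_mem x.2⟩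

theorem ED_coe (x : EF ω₁ ω₂) : (ED x : MK) = MD x := rfl

theorem ED_isDer : IsDer (RingHom.id (EF ω₁ ω₂)) ED where
  add := fun a b => Subtype.ext (MD_add a b)
  mul := fun a b => Subtype.ext (MD_mul a b)

theorem ED_const (c : ℂ) : ED (algebraMap ℂ (EF ω₁ ω₂) c) = 0 := Subtype.ext (MD_const c)

theorem TT_isDer (z0 : ℂ) : IsDer ((TT z0).toRingHom.comp (algebraMap (EF ω₁ ω₂) MK))
    (fun x : EF ω₁ ω₂ => TT z0 (ED x : MK)) where
  add := fun a b => by
    rw [ED_coe, ED_coe, ED_coe]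
    change TT z0 (MD (a + b : MK)) = _
    rw [MD_add, map_add]
  mul := fun a b => by
    rw [ED_coe, ED_coe, ED_coe]
    change TT z0 (MD (a * b : MK)) = TT z0 (a : MK) * TT z0 (MD (b : MK)) +
      TT z0 (b : MK) * TT z0 (MD (a : MK))
    rw [MD_mul, map_add, map_mul, map_mul]

/-- two elements of which the first is transcendental -/
theorem alg_of_not_indep {A : Type} [Field A] [Algebra ℂ A] {x y : A} (hx : Transcendental ℂ x)
    (hxy : ¬ AlgebraicIndependent ℂ ![x, y]) : IsAlgebraic (Algebra.adjoin ℂ {x}) y := by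
  by_contra hy
  apply hxy
  rw [AlgebraicIndependent.iff_transcendental_adjoin_image 1]
  constructor
  · let _ : Unique {j : Fin 2 // j ≠ 1} :=
      { default := ⟨0, by decide⟩
        uniq := by
          rintro ⟨j, hj⟩
          apply Subtype.ext
          change j = 0
          fin_cases j
          · rfl
          · exact absurd rfl hj }
    rw [algebraicIndependent_unique_type_iff]
    exact hx
  · have h1 : (![x, y] '' {1}ᶜ : Set A) = {x} := by
      ext t
      constructor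
      · rintro ⟨j, hj, rfl⟩
        fin_cases j
        · rfl
        · exact absurd rfl hj
      · rintro rfl
        exact ⟨0, by simp, rfl⟩
    rw [h1]
    exact hy

open scoped IntermediateField.algebraAdjoinAdjoin in
theorem alg_field {A : Type} [Field A] [Algebra ℂ A] {s : Set A} {y : A}
    (h : IsAlgebraic (Algebra.adjoin ℂ s) y) : IsAlgebraic (IntermediateField.adjoin ℂ s) y := by
  refine h.extendScalars ?_
  intro a b hab
  apply Subtype.ext
  exact congrArg (fun x : IntermediateField.adjoin ℂ s => (x : A)) hab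

/-- two elliptic functions are algebraically dependent -/
theorem EF_dep (hind : LinearIndependent ℝ ![ω₁, ω₂]) (x y : EF ω₁ ω₂) :
    ¬ AlgebraicIndependent ℂ ![x, y] := by
  obtain ⟨f, hf, h1, h2, hfx⟩ := x.2
  obtain ⟨g, hg, h3, h4, hgy⟩ := y.2
  obtain ⟨P, hP0, hP⟩ := ell_dep hind (a := f) (b := g) ⟨hf, h1, h2⟩ ⟨hg, h3, h4⟩
  intro hi
  apply hP0
  rw [algebraicIndependent_iff] at hi
  apply hi
  apply Subtype.ext
  have h5 : ((MvPolynomial.aeval ![x, y] P : EF ω₁ ω₂) : MK) =
      MvPolynomial.aeval (fun j => cl (![f, g] j) (by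
        fin_cases j
        · exact hf
        · exact hg)) P := by
    have h6 := MvPolynomial.comp_aeval_apply (f := ![x, y]) (EF ω₁ ω₂).val P
    change (EF ω₁ ω₂).val (MvPolynomial.aeval ![x, y] P) = _
    rw [h6]
    congr 1
    congr 1
    funext j
    fin_cases j
    · exact hfx.symm
    · exact hgy.symm
  rw [h5, aeval_cl]
  change _ = (0 : MK)
  rw [cl_eq_zero]
  filter_upwards [hP] with z hz
  rw [← hz]
  congr 1
  congr 1
  funext j
  fin_cases j <;> rfl

/-- derivations of the field of elliptic functions killing the constants are proportional -/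
theorem prop_der (hind : LinearIndependent ℝ ![ω₁, ω₂]) {φ : EF ω₁ ω₂ →+* LL}
    {δ ε : EF ω₁ ω₂ → LL} (hδ : IsDer φ δ) (hε : IsDer φ ε)
    (hδc : ∀ c : ℂ, δ (algebraMap ℂ _ c) = 0) (hεc : ∀ c : ℂ, ε (algebraMap ℂ _ c) = 0)
    {t : EF ω₁ ω₂} (ht : ε t ≠ 0) : ∀ x, δ x = δ t / ε t * ε x := by
  intro x
  have htt : Transcendental ℂ t := fun h => ht (hε.alg_zero hεc h)
  let θ : EF ω₁ ω₂ → LL := fun x => δ x - δ t / ε t * ε x
  have hθ : IsDer φ θ := by
    constructor
    · intro a b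
      simp only [θ, hδ.add, hε.add]
      ring
    · intro a b
      simp only [θ, hδ.mul, hε.mul]
      ring
  have h1 := hθ.zero_of_adjoin (k := ℂ) (fun c => by simp only [θ, hδc, hεc, mul_zero, sub_zero])
    {t} (by
      rintro _ rfl
      simp only [θ]
      field_simp
      ring) (alg_field (alg_of_not_indep htt (EF_dep hind t x)))
  exact sub_eq_zero.mp h1

/-- Liouville's theorem -/
theorem EF_liouville (hind : LinearIndependent ℝ ![ω₁, ω₂]) {x : MK} (hx : x ∈ EF ω₁ ω₂)
    (hreg : ∀ z0, Reg z0 x) : ∃ c : ℂ, x = algebraMap ℂ MK c := by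
  obtain ⟨f, hf, h1, h2, rfl⟩ := hx
  have han : ∀ z, AnalyticAt ℂ (toMeromorphicNFOn f univ) z := by
    intro z
    obtain ⟨Y, hY⟩ := hreg z
    obtain ⟨u, hu, hfu, -⟩ := TT_reg hf hY
    exact nf_an hf hu hfu
  have hc := ell_liouville hind (g := toMeromorphicNFOn f univ) (nf_per hf h1) (nf_per hf h2)
    (fun z _ => han z)
  refine ⟨toMeromorphicNFOn f univ 0, ?_⟩
  rw [← cl_const, cl_eq]
  filter_upwards [nf_codis hf] with z hz
  rw [hz]
  exact hc z 0

/-- a meromorphic function with vanishing derivative is constant -/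
theorem MD_zero {f : ℂ → ℂ} (hf : Meromorphic f) (h : MD (cl f hf) = 0) :
    ∃ c : ℂ, ∀ᶠ z in codiscrete ℂ, f z = c := by
  rw [MD_cl, cl_eq_zero] at h
  obtain ⟨z0, hz0⟩ := (mero_an hf).exists
  have h1 : ∀ᶠ z in 𝓝 z0, deriv f z = 0 := by
    have h2 : ∀ᶠ z in 𝓝[≠] z0, deriv f z = 0 := codis_ev h z0
    exact (hz0.deriv.frequently_eq_iff_eventually_eq analyticAt_const).mp h2.frequently
  obtain ⟨r, hr, hball⟩ := Metric.eventually_nhds_iff_ball.mp
    (h1.and hz0.eventually_analyticAt)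
  have h3 : ∀ z ∈ Metric.ball z0 r, f z = f z0 := by
    intro z hz
    exact IsOpen.is_const_of_deriv_eq_zero Metric.isOpen_ball
      (convex_ball z0 r).isPreconnected (fun w hw => (hball w hw).2.differentiableAt.differentiableWithinAt)
      (fun w hw => (hball w hw).1) hz (Metric.mem_ball_self hr)
  refine ⟨f z0, ?_⟩
  have h4 : ∀ᶠ z in 𝓝 z0, f z - f z0 = 0 := by
    filter_upwards [Metric.ball_mem_nhds z0 hr] with z hz
    rw [h3 z hz, sub_self]
  have h5 := mero_id (f := fun z => f z - f z0) (hf.sub (Meromorphic.const (f z0))) (freq_of_ev h4)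
  filter_upwards [h5] with z hz
  exact sub_eq_zero.mp hz

end Pool.Agent.TH182.VG
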