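import Mathlib
import Pool.Agent.TH182.VG.Span

/-!
Sections of the pulled back tangent bundle: determinants.
-/

set_option autoImplicit false

namespace Pool.Agent.TH182.VG

open MvPolynomial

variable {p : ℕ}

/-- the rows -/
noncomputable def row {A : Type} [CommRing A] [Algebra ℂ A] (M : Finset (Fin (p + 3) →₀ ℕ))
    (S : ℕ → Sec (Fin (p + 3))) (x dx : Fin (p + 3) → A)
    (y : (Fin (p + 3) →₀ ℕ) → Fin (p + 3) → A) (i : ℕ) : Fin (p + 3) → A :=
  if i = 0 then x else if i = 1 then dx else secv M (S i) x y

/-- the matrix -/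
noncomputable def mat {A : Type} [CommRing A] [Algebra ℂ A] (M : Finset (Fin (p + 3) →₀ ℕ))
    (S : ℕ → Sec (Fin (p + 3))) (x dx : Fin (p + 3) → A)
    (y : (Fin (p + 3) →₀ ℕ) → Fin (p + 3) → A) (e : Fin (p + 3) → A) :
    Matrix (Fin (p + 3)) (Fin (p + 3)) A :=
  Matrix.of fun i => if (i : ℕ) = p + 2 then e else row M S x dx y i

section Rows

variable {A : Type} [CommRing A] [Algebra ℂ A] {M : Finset (Fin (p + 3) →₀ ℕ)}
  {S : ℕ → Sec (Fin (p + 3))} {x dx : Fin (p + 3) → A}
  {y : (Fin (p + 3) →₀ ℕ) → Fin (p + 3) → A} {e : Fin (p + 3) → A}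

theorem mat_last : (fun j => mat M S x dx y e (Fin.last (p + 2)) j) = e := by
  funext j
  simp [mat]

theorem mat_castSucc (i : Fin (p + 2)) :
    (fun j => mat M S x dx y e (Fin.castSucc i) j) = row M S x dx y i := by
  funext j
  have h1 : (i : ℕ) ≠ p + 2 := by have := i.isLt; omega
  simp [mat, h1]

theorem mat_zero (j : Fin (p + 3)) : mat M S x dx y e ⟨0, by omega⟩ j = x j := by
  simp [mat, row]

theorem mat_one (j : Fin (p + 3)) : mat M S x dx y e ⟨1, by omega⟩ j = dx j := by
  simp [mat, row]

end Rows

/-- existence of enough independent sections -/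
theorem exists_indep {F : MvPolynomial (Fin (p + 3)) ℂ} {d : ℕ} (hF : F.IsHomogeneous d)
    (hd : 1 ≤ d) (hsupp : ∀ m : Fin (p + 3) →₀ ℕ, m.degree = d → coeff m F ≠ 0)
    {E : Type} [Field E] [Algebra ℂ E] {x dx : Fin (p + 3) → E}
    {y : (Fin (p + 3) →₀ ℕ) → Fin (p + 3) → E} (hx : LinearIndependent E ![x, dx]) (q : ℕ)
    (hq2 : 2 ≤ q) (hqp : q ≤ p + 2) :
    ∃ S : ℕ → Sec (Fin (p + 3)), (∀ i, Adm F (S i)) ∧
      LinearIndependent E (fun i : Fin q => row F.support S x dx y i) := by
  have hx0 : x ≠ 0 := hx.ne_zero 0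
  induction q, hq2 using Nat.le_induction with
  | base =>
    refine ⟨fun _ => ⟨fun _ => 0, fun _ => 0⟩, fun i => ⟨fun m => isHomogeneous_zero _ _ _,
      fun k => isHomogeneous_zero _ _ _, by simp⟩, ?_⟩
    have h1 : (fun i : Fin 2 => row F.support
        (fun _ => (⟨fun _ => 0, fun _ => 0⟩ : Sec (Fin (p + 3)))) x dx y i) = ![x, dx] := by
      funext i
      fin_cases i
      · simp [row]
      · simp [row]
    rw [h1]
    exact hx
  | succ q hq ih =>
    obtain ⟨S, hS, hind⟩ := ih (by omega)
    set v : Fin q → Fin (p + 3) → E := fun i => row F.support S x dx y i with hv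
    by_cases hex : ∃ T : Sec (Fin (p + 3)), Adm F T ∧
        secv F.support T x y ∉ Submodule.span E (Set.range v)
    · obtain ⟨T, hT, hTn⟩ := hex
      refine ⟨Function.update S q T, fun i => ?_, ?_⟩
      · by_cases hi : i = q
        · rw [hi, Function.update_self]; exact hT
        · rw [Function.update_of_ne hi]; exact hS i
      · have h1 : (fun i : Fin (q + 1) => row F.support (Function.update S q T) x dx y i) =
            Fin.snoc v (secv F.support T x y) := by
          funext i
          refine Fin.lastCases ?_ (fun i => ?_) i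
          · rw [Fin.snoc_last]
            simp only [Fin.val_last, row]
            rw [if_neg (by omega), if_neg (by omega), Function.update_self]
          · rw [Fin.snoc_castSucc]
            simp only [Fin.val_castSucc, row, hv]
            rw [Function.update_of_ne (by have := i.isLt; omega)]
        rw [h1, linearIndependent_finSnoc]
        exact ⟨hind, hTn⟩
    · exfalso
      push Not at hex
      -- all functionals vanishing on v are proportional to the gradient
      let Φ : (Fin (p + 3) → E) →ₗ[E] (Fin q → E) :=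
        LinearMap.pi fun i => ∑ k, v i k • LinearMap.proj k
      have hΦ : ∀ w i, Φ w i = ∑ k, w k * v i k := by
        intro w i
        simp only [Φ, LinearMap.pi_apply, LinearMap.sum_apply, LinearMap.smul_apply,
          LinearMap.proj_apply, smul_eq_mul]
        refine Finset.sum_congr rfl fun k _ => mul_comm _ _
      have h1 : LinearMap.ker Φ ≤ Submodule.span E {fun k => aeval x (pderiv k F)} := by
        intro w hw
        have hw' : ∀ i, ∑ k, w k * v i k = 0 := by
          intro i
          rw [← hΦ, LinearMap.mem_ker.mp hw]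
          rfl
        have hw2 : ∀ z ∈ Submodule.span E (Set.range v), ∑ k, w k * z k = 0 := by
          intro z hz
          induction hz using Submodule.span_induction with
          | mem z hz =>
            obtain ⟨i, rfl⟩ := hz
            exact hw' i
          | zero => simp
          | add a b _ _ ha hb =>
            simp only [Pi.add_apply, mul_add]
            rw [Finset.sum_add_distrib, ha, hb, add_zero]
          | smul c a _ ha =>
            simp only [Pi.smul_apply, smul_eq_mul]
            have : ∀ k, w k * (c * a k) = c * (w k * a k) := fun k => by ring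
            simp only [this]
            rw [← Finset.mul_sum, ha, mul_zero]
        obtain ⟨u, hu⟩ := functional hF hd hsupp hx0 (fun T hT => hw2 _ (hex T hT))
        rw [Submodule.mem_span_singleton]
        refine ⟨u, ?_⟩
        funext k
        rw [Pi.smul_apply, smul_eq_mul, hu k]
      have h2 := LinearMap.finrank_range_add_finrank_ker Φ
      have h3 : Module.finrank E (LinearMap.ker Φ) ≤ 1 :=
        (Submodule.finrank_mono h1).trans ((finrank_span_le_card _).trans (by simp))
      have h4 : Module.finrank E (LinearMap.range Φ) ≤ q := by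
        refine (Submodule.finrank_le _).trans ?_
        rw [Module.finrank_fintype_fun_eq_card, Fintype.card_fin]
      rw [Module.finrank_fintype_fun_eq_card, Fintype.card_fin] at h2
      omega

/-- a nonvanishing determinant -/
theorem exists_det_ne {F : MvPolynomial (Fin (p + 3)) ℂ} {E : Type} [Field E] [Algebra ℂ E]
    {S : ℕ → Sec (Fin (p + 3))} {x dx : Fin (p + 3) → E}
    {y : (Fin (p + 3) →₀ ℕ) → Fin (p + 3) → E}
    (h : LinearIndependent E (fun i : Fin (p + 2) => row F.support S x dx y i)) :
    ∃ k, (mat F.support S x dx y (Pi.single k 1)).det ≠ 0 := by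
  set v : Fin (p + 2) → Fin (p + 3) → E := fun i => row F.support S x dx y i with hv
  have h1 : ∃ k, (Pi.single k (1 : E) : Fin (p + 3) → E) ∉ Submodule.span E (Set.range v) := by
    by_contra hcon
    push Not at hcon
    have h2 : Submodule.span E (Set.range v) = ⊤ := by
      rw [eq_top_iff, ← (Pi.basisFun E (Fin (p + 3))).span_eq, Submodule.span_le]
      rintro _ ⟨k, rfl⟩
      rw [Pi.basisFun_apply]
      exact hcon k
    have h3 := finrank_range_le_card (R := E) v
    rw [Set.finrank, h2, finrank_top, Module.finrank_fintype_fun_eq_card, Fintype.card_fin,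
      Fintype.card_fin] at h3
    omega
  obtain ⟨k, hk⟩ := h1
  refine ⟨k, ?_⟩
  have h2 : LinearIndependent E (mat F.support S x dx y (Pi.single k 1)).row := by
    have h3 : (mat F.support S x dx y (Pi.single k 1)).row =
        (Fin.snoc v (Pi.single k (1 : E)) : Fin (p + 2 + 1) → Fin (p + 3) → E) := by
      funext i
      refine Fin.lastCases ?_ (fun i => ?_) i
      · rw [Fin.snoc_last]
        exact mat_last
      · rw [Fin.snoc_castSucc]
        exact mat_castSucc i
    rw [h3]
    exact linearIndependent_finSnoc.mpr ⟨h, hk⟩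
  have h4 := Matrix.linearIndependent_rows_iff_isUnit.mp h2
  exact ((Matrix.isUnit_iff_isUnit_det _).mp h4).ne_zero

/-- the determinant vanishes when the last row is also orthogonal to the gradient -/
theorem det_zero {F : MvPolynomial (Fin (p + 3)) ℂ} {E : Type} [Field E] [Algebra ℂ E]
    {S : ℕ → Sec (Fin (p + 3))} (hS : ∀ i, Adm F (S i)) {x dx : Fin (p + 3) → E}
    {y : (Fin (p + 3) →₀ ℕ) → Fin (p + 3) → E}
    (hx : ∑ k, aeval x (pderiv k F) * x k = 0) (hdx : ∑ k, aeval x (pderiv k F) * dx k = 0)
    (hy : ∀ m ∈ F.support, ∑ k, aeval x (pderiv k F) * y m k = -aeval x (monomial m (1 : ℂ)))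
    {e : Fin (p + 3) → E} (he : ∑ k, aeval x (pderiv k F) * e k = 0)
    (hG : ∃ k, aeval x (pderiv k F) ≠ 0) :
    (mat F.support S x dx y e).det = 0 := by
  rw [← Matrix.exists_mulVec_eq_zero_iff]
  obtain ⟨k0, hk0⟩ := hG
  refine ⟨fun k => aeval x (pderiv k F), fun h0 => hk0 (congrFun h0 k0), ?_⟩
  funext i
  change ∑ k, (mat F.support S x dx y e) i k * aeval x (pderiv k F) = 0
  have h1 : ∀ z : Fin (p + 3) → E, ∑ k, z k * aeval x (pderiv k F) =
      ∑ k, aeval x (pderiv k F) * z k := fun z => Finset.sum_congr rfl fun k _ => mul_comm _ _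
  simp only [mat, Matrix.of_apply]
  rw [h1]
  split_ifs
  · exact he
  · simp only [row]
    split_ifs
    · exact hx
    · exact hdx
    · exact (hS _).dot hy

/-- the determinant is linear in the last row -/
theorem det_lin {F : MvPolynomial (Fin (p + 3)) ℂ} {A : Type} [CommRing A] [Algebra ℂ A]
    {S : ℕ → Sec (Fin (p + 3))} {x dx : Fin (p + 3) → A}
    {y : (Fin (p + 3) →₀ ℕ) → Fin (p + 3) → A} (a b : A) (e e' : Fin (p + 3) → A) :
    (mat F.support S x dx y (a • e + b • e')).det =
      a * (mat F.support S x dx y e).det + b * (mat F.support S x dx y e').det := by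
  have h1 : ∀ e, mat F.support S x dx y e =
      (mat F.support S x dx y 0).updateRow (Fin.last (p + 2)) e := by
    intro e
    ext i j
    rw [Matrix.updateRow_apply]
    by_cases hi : i = Fin.last (p + 2)
    · rw [if_pos hi, hi]
      simp [mat]
    · rw [if_neg hi]
      have : (i : ℕ) ≠ p + 2 := fun h0 => hi (Fin.ext h0)
      simp [mat, this]
  rw [h1 (a • e + b • e'), Matrix.det_updateRow_add, Matrix.det_updateRow_smul,
    Matrix.det_updateRow_smul, ← h1, ← h1]

/-- the comparison of determinants -/
theorem det_compare {M : Finset (Fin (p + 3) →₀ ℕ)} {L : Type} [Field L] [Algebra ℂ L]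
    {S : ℕ → Sec (Fin (p + 3))} (hSa : ∀ i m, ((S i).a m).IsHomogeneous 1)
    (hSb : ∀ i k, ((S i).b k).IsHomogeneous 2) {x dx x' dx' : Fin (p + 3) → L}
    {y y' : (Fin (p + 3) →₀ ℕ) → Fin (p + 3) → L} (lam mu : L) (hlam : lam ≠ 0)
    (c f : (Fin (p + 3) →₀ ℕ) → L) (hx' : ∀ k, x' k = lam * x k)
    (hdx' : ∀ k, dx' k = lam * dx k + mu * x k)
    (hy' : ∀ m ∈ M, ∀ k, y' m k = lam * y m k + c m * x k + f m * dx k) (e : Fin (p + 3) → L) :
    (mat M S x' dx' y' e).det = lam ^ (2 * p + 2) * (mat M S x dx y e).det := by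
  -- the sections
  have hsec : ∀ i, ∃ c1 c2 : L, ∀ k, secv M (S i) x' y' k =
      lam ^ 2 * secv M (S i) x y k + c1 * x k + c2 * dx k := by
    intro i
    have hxx : x' = fun k => lam * x k := funext hx'
    refine ⟨lam * ∑ m ∈ M, aeval x ((S i).a m) * c m, lam * ∑ m ∈ M, aeval x ((S i).a m) * f m,
      fun k => ?_⟩
    have h1 : ∑ m ∈ M, aeval x' ((S i).a m) * y' m k =
        lam ^ 2 * (∑ m ∈ M, aeval x ((S i).a m) * y m k) +
          (lam * ∑ m ∈ M, aeval x ((S i).a m) * c m) * x k +
          (lam * ∑ m ∈ M, aeval x ((S i).a m) * f m) * dx k := by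
      rw [Finset.mul_sum, Finset.mul_sum, Finset.mul_sum, Finset.sum_mul, Finset.sum_mul,
        ← Finset.sum_add_distrib, ← Finset.sum_add_distrib]
      refine Finset.sum_congr rfl fun m hm => ?_
      rw [hxx, aeval_smul_homog (hSa i m), hy' m hm]
      ring
    simp only [secv]
    rw [h1, hxx, aeval_smul_homog (hSb i k)]
    ring
  choose c1 c2 hsec using hsec
  set B := mat M S x dx y e with hB
  let v : Fin (p + 3) → L := fun i => if (i : ℕ) = p + 2 then 1 else if (i : ℕ) = 0 then lam
    else if (i : ℕ) = 1 then lam else lam ^ 2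
  have hv : ∏ i, v i = lam ^ (2 * p + 2) := by
    rw [Fin.prod_univ_castSucc, Fin.prod_univ_succ, Fin.prod_univ_succ]
    have h1 : v (Fin.last (p + 2)) = 1 := by simp [v]
    have h2 : ∀ i : Fin p, v (Fin.castSucc i.succ.succ) = lam ^ 2 := by
      intro i
      have := i.isLt
      simp only [v, Fin.val_castSucc, Fin.val_succ]
      rw [if_neg (by omega), if_neg (by omega), if_neg (by omega)]
    rw [h1]
    simp only [h2, Finset.prod_const, Finset.card_univ, Fintype.card_fin]
    have h3 : v (Fin.castSucc 0) = lam := by simp [v]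
    have h4 : v (Fin.castSucc (Fin.succ 0)) = lam := by simp [v]
    rw [h3, h4]
    ring
  let B1 : Matrix (Fin (p + 3)) (Fin (p + 3)) L := Matrix.of fun i j => v i * B i j
  have hB1 : B1.det = lam ^ (2 * p + 2) * B.det := by
    rw [← hv]
    exact Matrix.det_mul_column v B
  let n1 : Fin (p + 3) → L := fun i => if (i : ℕ) = p + 2 then 0 else if (i : ℕ) = 0 then 0
    else if (i : ℕ) = 1 then 0 else c2 i / lam
  let n0 : Fin (p + 3) → L := fun i => if (i : ℕ) = p + 2 then 0 else if (i : ℕ) = 0 then 0
    else if (i : ℕ) = 1 then mu / lam else c1 i / lam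
  let i0 : Fin (p + 3) := ⟨0, by omega⟩
  let i1 : Fin (p + 3) := ⟨1, by omega⟩
  let B2 : Matrix (Fin (p + 3)) (Fin (p + 3)) L := Matrix.of fun i j => B1 i j + n1 i * B1 i1 j
  have hB2 : B2.det = B1.det := by
    apply Matrix.det_eq_of_forall_row_eq_smul_add_const n1 i1
    · simp [n1, i1]
    · intro i j
      rfl
  have hrow0 : ∀ j, B1 i0 j = lam * x j := by
    intro j
    change v i0 * mat M S x dx y e ⟨0, by omega⟩ j = _
    rw [mat_zero]
    simp [v, i0]
  have hrow1 : ∀ j, B1 i1 j = lam * dx j := by
    intro j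
    change v i1 * mat M S x dx y e ⟨1, by omega⟩ j = _
    rw [mat_one]
    simp [v, i1]
  have hB20 : ∀ j, B2 i0 j = lam * x j := by
    intro j
    have h1 : n1 i0 = 0 := by simp [n1, i0]
    change B1 i0 j + n1 i0 * B1 i1 j = _
    rw [h1, hrow0]
    ring
  have hfin : (mat M S x' dx' y' e).det = B2.det := by
    apply Matrix.det_eq_of_forall_row_eq_smul_add_const n0 i0
    · simp [n0, i0]
    · intro i j
      rw [hB20]
      change _ = B1 i j + n1 i * B1 i1 j + _
      rw [hrow1]
      change (mat M S x' dx' y' e) i j = v i * B i j + _ + _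
      simp only [hB, mat, Matrix.of_apply, v, n1, n0, row]
      by_cases h1 : (i : ℕ) = p + 2
      · simp only [if_pos h1]
        ring
      · simp only [if_neg h1]
        by_cases h2 : (i : ℕ) = 0
        · simp only [if_pos h2]
          rw [hx']
          ring
        · simp only [if_neg h2]
          by_cases h3 : (i : ℕ) = 1
          · simp only [if_pos h3]
            rw [hdx']
            field_simp
            ring
          · simp only [if_neg h3]
            rw [hsec]
            field_simp
            ring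
  rw [hfin, hB2, hB1]

/-- the determinant commutes with ring homomorphisms -/
theorem det_map {M : Finset (Fin (p + 3) →₀ ℕ)} {A L : Type} [CommRing A] [Algebra ℂ A]
    [CommRing L] [Algebra ℂ L] (T : A →ₐ[ℂ] L) {S : ℕ → Sec (Fin (p + 3))}
    {x dx : Fin (p + 3) → A} {y : (Fin (p + 3) →₀ ℕ) → Fin (p + 3) → A} (k : Fin (p + 3)) :
    T (mat M S x dx y (Pi.single k 1)).det =
      (mat M S (fun j => T (x j)) (fun j => T (dx j)) (fun m j => T (y m j))
        (Pi.single k 1)).det := by
  rw [AlgHom.map_det]
  congr 1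
  have hae : ∀ P : MvPolynomial (Fin (p + 3)) ℂ, T (aeval x P) = aeval (fun j => T (x j)) P := by
    intro P
    rw [← comp_aeval_apply]
  ext i j
  simp only [AlgHom.mapMatrix_apply, Matrix.map_apply, mat, Matrix.of_apply]
  split_ifs
  · by_cases h : j = k
    · rw [h]; simp
    · simp [h]
  · simp only [row]
    split_ifs
    · rfl
    · rfl
    · simp only [secv, map_add, map_sum, map_mul, hae]

end Pool.Agent.TH182.VG
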