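import Mathlib
import Pool.Agent.TH182.VG.Det
import Pool.Agent.TH182.VG.Tay
import Pool.Agent.TH182.VG.Der

/-!
Curves on very general hypersurfaces: the algebraic core over an abstract field.
-/

set_option autoImplicit false

namespace Pool.Agent.TH182.VG

open Filter Topology Set MvPolynomial

variable {p : ℕ}

/-- the relation given by a derivation dual to a coefficient -/
theorem rel3 {σ : Type} [Fintype σ] {A : Type} [CommRing A] [Algebra ℂ A] {δ : A → A}
    (hδ : IsDer (RingHom.id A) δ) {D : ℂ → ℂ}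
    (hδD : ∀ c, δ (algebraMap ℂ A c) = algebraMap ℂ A (D c)) {F : MvPolynomial σ ℂ} {m : σ →₀ ℕ}
    (hm : m ∈ F.support) (hD1 : D (coeff m F) = 1)
    (hD0 : ∀ m' ∈ F.support, m' ≠ m → D (coeff m' F) = 0)
    {x : σ → A} (hx : aeval x F = 0) :
    ∑ k, aeval x (pderiv k F) * δ (x k) = -aeval x (monomial m (1 : ℂ)) := by
  classical
  have h1 := hδ.chain x F
  rw [hx, hδ.zero] at h1
  have h2 : ∑ m' ∈ F.support, (RingHom.id A) (aeval x (monomial m' (1 : ℂ))) *
      δ (algebraMap ℂ A (coeff m' F)) = aeval x (monomial m (1 : ℂ)) := by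
    rw [Finset.sum_eq_single m]
    · rw [hδD, hD1, map_one (algebraMap ℂ A), mul_one, RingHom.id_apply]
    · intro m' hm' hne
      rw [hδD, hD0 m' hm' hne, map_zero, mul_zero]
    · intro h0
      exact absurd hm h0
  rw [h2] at h1
  simp only [RingHom.id_apply] at h1
  linear_combination -h1

/-- smoothness -/
theorem grad_ne {σ : Type} [Fintype σ] {F : MvPolynomial σ ℂ} {d : ℕ}
    (hsupp : ∀ m : σ →₀ ℕ, m.degree = d → coeff m F ≠ 0) {A : Type} [Field A] [Algebra ℂ A]
    {x : σ → A} (hx : x ≠ 0) (h : ∀ m ∈ F.support, ∃ y : σ → A,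
      ∑ k, aeval x (pderiv k F) * y k = -aeval x (monomial m (1 : ℂ))) :
    ∃ k, aeval x (pderiv k F) ≠ 0 := by
  classical
  by_contra hcon
  push Not at hcon
  obtain ⟨k, hk⟩ := Function.ne_iff.mp hx
  have hk' : x k ≠ 0 := hk
  have hm : Finsupp.single k d ∈ F.support := by
    rw [mem_support_iff]
    exact hsupp _ (Finsupp.degree_single k d)
  obtain ⟨y, hy⟩ := h _ hm
  simp only [hcon, zero_mul, Finset.sum_const_zero] at hy
  have h1 : aeval x (monomial (Finsupp.single k d) (1 : ℂ)) = x k ^ d := by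
    rw [aeval_monomial, map_one, one_mul, Finsupp.prod_single_index (by simp)]
  rw [h1] at hy
  exact pow_ne_zero d hk' (neg_eq_zero.mp hy.symm)

/-- the global section -/
theorem exists_c {F : MvPolynomial (Fin (p + 3)) ℂ} {d : ℕ} (hF : F.IsHomogeneous d)
    (hd : 1 ≤ d) (hsupp : ∀ m : Fin (p + 3) →₀ ℕ, m.degree = d → coeff m F ≠ 0)
    {E : Type} [Field E] [Algebra ℂ E] {x dx : Fin (p + 3) → E}
    {y : (Fin (p + 3) →₀ ℕ) → Fin (p + 3) → E} (hFx : aeval x F = 0)
    (R2 : ∑ k, aeval x (pderiv k F) * dx k = 0)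
    (R3 : ∀ m ∈ F.support, ∑ k, aeval x (pderiv k F) * y m k = -aeval x (monomial m (1 : ℂ)))
    (hlin : LinearIndependent E ![x, dx]) :
    ∃ S : ℕ → Sec (Fin (p + 3)), (∀ i, Adm F (S i)) ∧ ∃ c : E, c ≠ 0 ∧
      ∀ k, (mat F.support S x dx y (Pi.single k 1)).det = c * aeval x (pderiv k F) := by
  classical
  have R1 : ∑ k, aeval x (pderiv k F) * x k = 0 := by
    have h1 := congrArg (aeval x) hF.sum_X_mul_pderiv
    rw [map_sum, map_nsmul, hFx, smul_zero] at h1
    rw [← h1]
    refine Finset.sum_congr rfl fun k _ => ?_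
    rw [map_mul, aeval_X, mul_comm]
  have hx0 : x ≠ 0 := hlin.ne_zero 0
  obtain ⟨k2, hk2⟩ := grad_ne hsupp hx0 fun m hm => ⟨y m, R3 m hm⟩
  obtain ⟨S, hS, hSi⟩ := exists_indep hF hd hsupp (y := y) hlin (p + 2) (by omega) le_rfl
  obtain ⟨k1, hk1⟩ := exists_det_ne hSi
  set w : Fin (p + 3) → E := fun k => (mat F.support S x dx y (Pi.single k 1)).det with hw
  have hGw : ∀ k k', aeval x (pderiv k F) * w k' = aeval x (pderiv k' F) * w k := by
    intro k k'
    have h1 := det_lin (F := F) (S := S) (x := x) (dx := dx) (y := y) (aeval x (pderiv k F))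
      (-aeval x (pderiv k' F)) (Pi.single k' 1) (Pi.single k 1)
    have h2 : (mat F.support S x dx y (aeval x (pderiv k F) • (Pi.single k' 1 : Fin (p + 3) → E) +
        (-aeval x (pderiv k' F)) • (Pi.single k 1 : Fin (p + 3) → E))).det = 0 := by
      refine det_zero hS R1 R2 R3 ?_ ⟨k2, hk2⟩
      have h3 : ∀ j, aeval x (pderiv j F) *
          (aeval x (pderiv k F) • (Pi.single k' 1 : Fin (p + 3) → E) +
          (-aeval x (pderiv k' F)) • (Pi.single k 1 : Fin (p + 3) → E)) j =
          (if j = k' then aeval x (pderiv j F) * aeval x (pderiv k F) else 0) -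
          (if j = k then aeval x (pderiv j F) * aeval x (pderiv k' F) else 0) := by
        intro j
        simp only [Pi.add_apply, Pi.smul_apply, smul_eq_mul, Pi.single_apply]
        split_ifs <;> ring
      simp only [h3]
      rw [Finset.sum_sub_distrib, Finset.sum_ite_eq' Finset.univ k', Finset.sum_ite_eq' Finset.univ k]
      simp only [Finset.mem_univ, if_true]
      ring
    rw [h2] at h1
    linear_combination -h1
  refine ⟨S, hS, w k2 / aeval x (pderiv k2 F), ?_, ?_⟩
  · intro h0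
    apply hk1
    have h1 : w k2 = 0 := (div_eq_zero_iff.mp h0).resolve_right hk2
    have h2 := hGw k1 k2
    rw [h1, mul_zero] at h2
    exact (mul_eq_zero.mp h2.symm).resolve_left hk2
  · intro k
    change w k = _
    rw [div_mul_eq_mul_div, eq_div_iff hk2]
    linear_combination hGw k2 k

/-- the embedding as an algebra homomorphism -/
noncomputable def emA : PowerSeries ℂ →ₐ[ℂ] LL := IsScalarTower.toAlgHom ℂ (PowerSeries ℂ) LL

theorem emA_apply (a : PowerSeries ℂ) : emA a = em a := rfl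

theorem constantCoeff_aeval {σ : Type} (Y : σ → PowerSeries ℂ) (P : MvPolynomial σ ℂ) :
    PowerSeries.constantCoeff (aeval Y P) =
      aeval (fun j => PowerSeries.constantCoeff (Y j)) P := by
  induction P using MvPolynomial.induction_on with
  | C a =>
    rw [aeval_C, aeval_C]
    exact PowerSeries.constantCoeff_C a
  | add P Q hP hQ => rw [map_add, map_add, hP, hQ, map_add]
  | mul_X P i hP => rw [map_mul, map_mul, hP, map_mul, aeval_X, aeval_X]

/-- local regularity -/
theorem local_reg {F : MvPolynomial (Fin (p + 3)) ℂ} {d : ℕ} (hF : F.IsHomogeneous d)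
    (hd : 2 * p + 4 ≤ d) (hsupp : ∀ m : Fin (p + 3) →₀ ℕ, m.degree = d → coeff m F ≠ 0)
    {D : (Fin (p + 3) →₀ ℕ) → Derivation ℚ ℂ ℂ}
    (hD1 : ∀ m ∈ F.support, D m (coeff m F) = 1)
    (hD0 : ∀ m ∈ F.support, ∀ m' ∈ F.support, m' ≠ m → D m (coeff m' F) = 0)
    {E : Type} [Field E] [Algebra ℂ E] {x dx : Fin (p + 3) → E}
    {y : (Fin (p + 3) →₀ ℕ) → Fin (p + 3) → E} (hFx : aeval x F = 0)
    {S : ℕ → Sec (Fin (p + 3))} (hS : ∀ i, Adm F (S i)) {c : E}
    (hc : ∀ k, (mat F.support S x dx y (Pi.single k 1)).det = c * aeval x (pderiv k F))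
    {k0 : Fin (p + 3)} (hk0 : x k0 = 1) (T : E →ₐ[ℂ] LL) {l : Fin (p + 3)} (hl : x l ≠ 0)
    {Y Z : Fin (p + 3) → PowerSeries ℂ} (hY : ∀ j, T (x j) = T (x l) * em (Y j))
    (μ : LL) (hdx : ∀ j, T (dx j) = T (x l) * em (Z j) + μ * em (Y j))
    (ν η : (Fin (p + 3) →₀ ℕ) → LL) (hy : ∀ m j, T (y m j) = T (x l) * em (psDer (D m) (Y j)) +
      ν m * em (Y j) + T (x l) * η m * em (Z j)) :
    (∃ U, T c = em U) ∧ ∀ j, ∃ U, T (c * x j) = em U := by
  have hTinj : Function.Injective T := T.toRingHom.injective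
  set lam : LL := T (x l) with hlam
  have hlam0 : lam ≠ 0 := fun h0 => hl (hTinj (by rw [← hlam, h0, map_zero]))
  have haem : ∀ P : MvPolynomial (Fin (p + 3)) ℂ, em (aeval Y P) = aeval (fun j => em (Y j)) P := by
    intro P
    rw [← emA_apply, comp_aeval_apply]
    rfl
  have haT : ∀ P : MvPolynomial (Fin (p + 3)) ℂ, T (aeval x P) =
      aeval (fun j => lam * em (Y j)) P := by
    intro P
    rw [comp_aeval_apply]
    congr 2
    funext j
    exact hY j
  have hYF : aeval Y F = 0 := by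
    apply em_inj
    rw [haem, map_zero]
    have h1 := haT F
    rw [hFx, map_zero, aeval_smul_homog hF] at h1
    exact (mul_eq_zero.mp h1.symm).resolve_left (pow_ne_zero d hlam0)
  have hYl : Y l = 1 := by
    apply em_inj
    rw [map_one]
    apply mul_left_cancel₀ hlam0
    rw [← hY, mul_one]
  -- the gradient at the point
  let y0 : Fin (p + 3) → ℂ := fun j => PowerSeries.constantCoeff (Y j)
  have hy0 : aeval y0 F = 0 := by rw [← constantCoeff_aeval, hYF, map_zero]
  have hy0ne : y0 ≠ 0 := by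
    intro h0
    have h1 := congrFun h0 l
    simp only [y0, hYl, map_one, Pi.zero_apply] at h1
    exact one_ne_zero h1
  obtain ⟨k3, hk3⟩ := grad_ne hsupp hy0ne fun m hm =>
    ⟨fun k => D m (y0 k), rel3 (A := ℂ) (isDer_of_derivation (D m)) (D := fun c => D m c)
      (fun c => rfl) hm (hD1 m hm) (hD0 m hm) hy0⟩
  have hU : IsUnit (aeval Y (pderiv k3 F)) := by
    rw [PowerSeries.isUnit_iff_constantCoeff, constantCoeff_aeval]
    exact isUnit_iff_ne_zero.mpr hk3
  obtain ⟨V, hV⟩ := hU.exists_right_inv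
  have hdet : ∀ k, T (mat F.support S x dx y (Pi.single k 1)).det = lam ^ (2 * p + 2) *
      em (mat F.support S Y Z (fun m j => psDer (D m) (Y j)) (Pi.single k 1)).det := by
    intro k
    rw [← emA_apply, det_map emA k, det_map T k]
    refine det_compare (fun i m => (hS i).ha m) (fun i k => (hS i).hb k) lam μ
      hlam0 ν (fun m => lam * η m) hY hdx ?_ _
    intro m _ k
    exact hy m k
  have hTG : T (aeval x (pderiv k3 F)) = lam ^ (d - 1) * em (aeval Y (pderiv k3 F)) := by
    rw [haT, haem, aeval_smul_homog (hF.pderiv (i := k3))]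
  set W := (mat F.support S Y Z (fun m j => psDer (D m) (Y j)) (Pi.single k3 1)).det with hW
  have h1 : T c * (lam ^ (d - 1) * em (aeval Y (pderiv k3 F))) = lam ^ (2 * p + 2) * em W := by
    rw [← hTG, ← hdet, ← map_mul, hc]
  have h2 : lam * em (Y k0) = 1 := by
    rw [← hY, hk0, map_one]
  have h3 : em (aeval Y (pderiv k3 F)) * em V = 1 := by
    rw [← map_mul, hV, map_one]
  obtain ⟨κ, hκ⟩ : ∃ κ, d - 1 = κ + 1 + (2 * p + 2) := ⟨d - 2 * p - 4, by omega⟩
  have h4 : T c = em (V * W * Y k0 ^ (κ + 1)) := by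
    have h5 : T c * lam ^ (κ + 1) * em (aeval Y (pderiv k3 F)) = em W := by
      apply mul_left_cancel₀ (pow_ne_zero (2 * p + 2) hlam0)
      rw [← h1, hκ, pow_add lam (κ + 1)]
      ring
    have h6 : T c * lam ^ (κ + 1) = em W * em V := by
      rw [← h5, mul_assoc _ _ (em V), h3, mul_one]
    have h7 : T c = T c * (lam * em (Y k0)) ^ (κ + 1) := by rw [h2, one_pow, mul_one]
    rw [h7, mul_pow, ← mul_assoc, h6, map_mul, map_mul, map_pow]
    ring
  refine ⟨⟨_, h4⟩, fun j => ⟨V * W * Y k0 ^ κ * Y j, ?_⟩⟩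
  rw [map_mul, h4, hY j]
  simp only [map_mul, map_pow]
  have h5 : em (Y k0) ^ (κ + 1) * lam = em (Y k0) ^ κ := by
    rw [pow_succ, mul_assoc, mul_comm (em (Y k0)) lam, h2, mul_one]
  calc em V * em W * em (Y k0) ^ (κ + 1) * (lam * em (Y j))
      = em V * em W * (em (Y k0) ^ (κ + 1) * lam) * em (Y j) := by ring
    _ = em V * em W * em (Y k0) ^ κ * em (Y j) := by rw [h5]

end Pool.Agent.TH182.VG
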