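import Mathlib
import Pool.Agent.TH182.VG.Loc
import Pool.Agent.TH182.VG.Fld

/-!
Elliptic curves on very general hypersurfaces: the algebraic core.
-/

set_option autoImplicit false

namespace Pool.Agent.TH182.VG

open Filter Topology Set MvPolynomial
open Pool.Agent.TH143.EL

variable {p : ℕ}

/-- the expansion on the field of elliptic functions -/
noncomputable def TE (ω₁ ω₂ z0 : ℂ) : EF ω₁ ω₂ →ₐ[ℂ] LL := (TT z0).comp (EF ω₁ ω₂).val

theorem TE_apply {ω₁ ω₂ : ℂ} (z0 : ℂ) (u : EF ω₁ ω₂) : TE ω₁ ω₂ z0 u = TT z0 (u : MK) := rfl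

theorem TE_inj {ω₁ ω₂ : ℂ} (z0 : ℂ) : Function.Injective (TE ω₁ ω₂ z0) :=
  (TE ω₁ ω₂ z0).toRingHom.injective

/-- comparison of the global and local derivations -/
theorem compare_der {ω₁ ω₂ : ℂ} (hω : LinearIndependent ℝ ![ω₁, ω₂]) (z0 : ℂ)
    {D : Derivation ℚ ℂ ℂ} {D' : EF ω₁ ω₂ → EF ω₁ ω₂} (hD' : IsDer (RingHom.id (EF ω₁ ω₂)) D')
    (hDD' : ∀ c, D' (algebraMap ℂ _ c) = algebraMap ℂ _ (D c)) {t : EF ω₁ ω₂} (ht : ED t ≠ 0) :
    ∃ η : LL, ∀ (u : EF ω₁ ω₂) (Y : PowerSeries ℂ), TE ω₁ ω₂ z0 u = em Y →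
      TE ω₁ ω₂ z0 (D' u) = em (psDer D Y) + η * TE ω₁ ω₂ z0 (ED u) := by
  set T := TE ω₁ ω₂ z0 with hT
  have : Algebra.FormallyEtale (PowerSeries ℂ) LL := .of_isLocalization
    (nonZeroDivisors (PowerSeries ℂ))
  obtain ⟨DL, hDL⟩ := extend_der (A := PowerSeries ℂ) (L := LL) (psDer D)
  have hDL' : ∀ a, DL (em a) = em (psDer D a) := hDL
  let δ : EF ω₁ ω₂ → LL := fun u => T (D' u) - DL (T u)
  let ε : EF ω₁ ω₂ → LL := fun u => T (ED u)
  have hδ : IsDer T.toRingHom δ := by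
    constructor
    · intro a b
      simp only [δ]
      rw [hD'.add, map_add, map_add, map_add]
      ring
    · intro a b
      simp only [δ]
      rw [hD'.mul, map_add, map_mul, map_mul, map_mul, Derivation.leibniz, smul_eq_mul,
        smul_eq_mul]
      simp only [RingHom.id_apply]
      change _ = T a * _ + T b * _
      ring
  have hε : IsDer T.toRingHom ε := by
    constructor
    · intro a b
      simp only [ε]
      rw [ED_isDer.add, map_add]
    · intro a b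
      simp only [ε]
      rw [ED_isDer.mul, map_add, map_mul, map_mul]
      rfl
  have hεt : ε t ≠ 0 := fun h0 => ht (TE_inj z0 (by
    rw [map_zero]
    exact h0))
  have h1 := prop_der hω hδ hε (by
    intro c
    simp only [δ]
    rw [hDD', AlgHom.commutes, AlgHom.commutes, ← em_C, ← em_C, hDL', psDer_C, sub_self])
    (by
      intro c
      simp only [ε]
      rw [ED_const, map_zero]) (t := t) hεt
  refine ⟨δ t / ε t, fun u Y hu => ?_⟩
  have h2 := h1 u
  change T (D' u) - DL (T u) = δ t / ε t * T (ED u) at h2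
  rw [hu, hDL'] at h2
  rw [← h2]
  ring

theorem core {F : MvPolynomial (Fin (p + 3)) ℂ} {d : ℕ} (hF : F.IsHomogeneous d)
    (hd : 2 * p + 4 ≤ d)
    (hind : AlgebraicIndependent ℚ
      (fun m : {m : Fin (p + 3) →₀ ℕ // m.degree = d} => coeff m.1 F))
    {ω₁ ω₂ : ℂ} (hω : LinearIndependent ℝ ![ω₁, ω₂]) (x : Fin (p + 3) → EF ω₁ ω₂)
    (hFx : aeval x F = 0) (k0 : Fin (p + 3)) (hk0 : x k0 = 1)
    (hloc : ∀ z0, ∃ l, x l ≠ 0 ∧ ∀ j, Reg z0 ((x j / x l : EF ω₁ ω₂) : MK)) :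
    ∀ j, ED (x j) = 0 := by
  classical
  by_contra hcon
  push Not at hcon
  obtain ⟨j1, hj1⟩ := hcon
  have hsupp : ∀ m : Fin (p + 3) →₀ ℕ, m.degree = d → coeff m F ≠ 0 := fun m hm =>
    hind.ne_zero ⟨m, hm⟩
  have hdeg : ∀ m ∈ F.support, m.degree = d := by
    intro m hm
    by_contra h0
    rw [mem_support_iff] at hm
    exact hm (hF.coeff_eq_zero h0)
  have : CharZero (EF ω₁ ω₂) := charZero_of_injective_algebraMap (algebraMap ℂ _).injective
  have hder : ∀ m : Fin (p + 3) →₀ ℕ, ∃ (D : Derivation ℚ ℂ ℂ)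
      (D' : EF ω₁ ω₂ → EF ω₁ ω₂), IsDer (RingHom.id (EF ω₁ ω₂)) D' ∧
      (∀ c, D' (algebraMap ℂ _ c) = algebraMap ℂ _ (D c)) ∧
      (m ∈ F.support → D (coeff m F) = 1) ∧
      (m ∈ F.support → ∀ m' ∈ F.support, m' ≠ m → D (coeff m' F) = 0) := by
    intro m
    by_cases hm : m.degree = d
    · obtain ⟨D, D', h0, h1, h2⟩ := exists_dual' hind (EF ω₁ ω₂) ⟨m, hm⟩
      refine ⟨D, D', h0, h1, fun _ => ?_, fun _ m' hm' hne => ?_⟩
      · rw [h2 ⟨m, hm⟩, if_pos rfl]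
      · rw [h2 ⟨m', hdeg m' hm'⟩, if_neg]
        intro h3
        exact hne (congrArg Subtype.val h3)
    · exact ⟨0, fun _ => 0, ⟨fun _ _ => by simp, fun _ _ => by simp⟩, fun c => by simp,
        fun h0 => absurd (hdeg m h0) hm, fun h0 => absurd (hdeg m h0) hm⟩
  choose D D' hIs hDD' hD1 hD0 using hder
  have hED1 : ED (1 : EF ω₁ ω₂) = 0 := by
    have := ED_const (ω₁ := ω₁) (ω₂ := ω₂) 1
    rwa [map_one] at this
  have hlin : LinearIndependent (EF ω₁ ω₂) ![x, fun k => ED (x k)] := by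
    rw [LinearIndependent.pair_iff]
    intro s t hst
    have h1 := congrFun hst k0
    simp only [Pi.add_apply, Pi.smul_apply, smul_eq_mul, Pi.zero_apply, hk0, hED1, mul_one,
      mul_zero, add_zero] at h1
    refine ⟨h1, ?_⟩
    have h2 := congrFun hst j1
    simp only [Pi.add_apply, Pi.smul_apply, smul_eq_mul, Pi.zero_apply, h1, zero_mul,
      zero_add] at h2
    exact (mul_eq_zero.mp h2).resolve_right hj1
  have R2 : ∑ k, aeval x (pderiv k F) * ED (x k) = 0 := by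
    have h1 := ED_isDer.chain_const (k := ℂ) ED_const x F
    rw [hFx, ED_isDer.zero] at h1
    exact h1.symm
  have R3 : ∀ m ∈ F.support, ∑ k, aeval x (pderiv k F) * D' m (x k) =
      -aeval x (monomial m (1 : ℂ)) := fun m hm =>
    rel3 (hIs m) (hDD' m) hm (hD1 m hm) (hD0 m hm) hFx
  obtain ⟨S, hS, c, hc0, hc⟩ := exists_c hF (by omega) hsupp
    (y := fun m k => D' m (x k)) hFx R2 R3 hlin
  -- regularity
  have hreg : ∀ z0, Reg z0 ((c : EF ω₁ ω₂) : MK) ∧ ∀ j, Reg z0 ((c * x j : EF ω₁ ω₂) : MK) := by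
    intro z0
    obtain ⟨l, hl, hr⟩ := hloc z0
    choose Y hY using hr
    have hTr : ∀ j, TE ω₁ ω₂ z0 (x j / x l) = em (Y j) := hY
    have hxr : ∀ j, x j = x l * (x j / x l) := fun j => (mul_div_cancel₀ (x j) hl).symm
    have hZ : ∀ j, ∃ Z, TE ω₁ ω₂ z0 (ED (x j / x l)) = em Z := by
      intro j
      exact Reg.MD ⟨Y j, hTr j⟩
    choose Z hZ using hZ
    have hη : ∀ m, ∃ η : LL, ∀ (u : EF ω₁ ω₂) (Y : PowerSeries ℂ), TE ω₁ ω₂ z0 u = em Y →
        TE ω₁ ω₂ z0 (D' m u) = em (psDer (D m) Y) + η * TE ω₁ ω₂ z0 (ED u) := fun m =>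
      compare_der hω z0 (hIs m) (hDD' m) hj1
    choose η hη using hη
    have key := local_reg (Y := Y) (Z := Z) hF hd hsupp hD1 hD0 hFx hS hc hk0 (TE ω₁ ω₂ z0) hl
      (fun j => by
        conv_lhs => rw [hxr j]
        rw [map_mul, hTr])
      (TE ω₁ ω₂ z0 (ED (x l))) (fun j => by
        conv_lhs => rw [hxr j]
        rw [ED_isDer.mul, map_add, map_mul, map_mul]
        simp only [RingHom.id_apply]
        rw [hZ, hTr, mul_comm (em (Y j))])
      (fun m => TE ω₁ ω₂ z0 (D' m (x l))) η (fun m j => by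
        conv_lhs => rw [hxr j]
        rw [(hIs m).mul, map_add, map_mul, map_mul]
        simp only [RingHom.id_apply]
        rw [hη m _ _ (hTr j), hTr, hZ]
        ring)
    exact key
  -- conclusion
  obtain ⟨c0, hc0'⟩ := EF_liouville hω c.2 (fun z0 => (hreg z0).1)
  obtain ⟨c1, hc1⟩ := EF_liouville hω (c * x j1).2 (fun z0 => (hreg z0).2 j1)
  have h1 : c = algebraMap ℂ _ c0 := Subtype.ext hc0'
  have h2 : c * x j1 = algebraMap ℂ _ c1 := Subtype.ext hc1
  have h3 : ED (c * x j1) = 0 := by rw [h2, ED_const]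
  have h4 : ED c = 0 := by rw [h1, ED_const]
  rw [ED_isDer.mul, h4, mul_zero, add_zero] at h3
  exact hj1 ((mul_eq_zero.mp h3).resolve_left hc0)

end Pool.Agent.TH182.VG
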