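import Mathlib
import Pool.Agent.TH182.VG.Core
import Pool.Agent.TH182.TC.Main

/-!
Maps from one-dimensional tori to very general hypersurfaces are constant.
-/

set_option autoImplicit false

namespace Pool.Agent.TH182.VG

open Filter Topology Set MvPolynomial
open scoped LinearAlgebra.Projectivization
open Pool.Agent.TH143.EL
open Pool.Agent.TH182.TC (Holo HoloAt ratio ratio_mk)

variable {p : ℕ}

theorem holo_of_holMap {N : ℕ} {f : ℂ → ℙ ℂ (Fin (N + 1) → ℂ)} (hf : HolMap f) : Holo f := by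
  intro z
  obtain ⟨g, hg, hev⟩ := hf z
  exact ⟨fun w j => g j w, analyticAt_pi_iff.mpr hg, hev⟩

theorem torus_const {F : MvPolynomial (Fin (p + 3)) ℂ} {d : ℕ} (hF : F.IsHomogeneous d)
    (hd : 2 * p + 4 ≤ d)
    (hind : AlgebraicIndependent ℚ
      (fun m : {m : Fin (p + 3) →₀ ℕ // m.degree = d} => coeff m.1 F))
    {ω₁ ω₂ : ℂ} (hω : LinearIndependent ℝ ![ω₁, ω₂]) {f : ℂ → ℙ ℂ (Fin (p + 2 + 1) → ℂ)}
    (hf : Holo f) (h1 : ∀ z, f (z + ω₁) = f z) (h2 : ∀ z, f (z + ω₂) = f z)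
    (hX : ∀ z, eval (f z).rep F = 0) (z w : ℂ) : f z = f w := by
  classical
  obtain ⟨k, hk⟩ := Function.ne_iff.mp (f 0).rep_nonzero
  have hkk := hf.ne_zero hk
  have hq : ∀ j, Meromorphic (ratio f j k) := fun j z => (hf z).mero j k
  have hmem : ∀ j, cl (ratio f j k) (hq j) ∈ EF ω₁ ω₂ := fun j =>
    ⟨ratio f j k, hq j, fun z => by simp only [ratio, h1], fun z => by simp only [ratio, h2], rfl⟩
  let x : Fin (p + 3) → EF ω₁ ω₂ := fun j => ⟨cl (ratio f j k) (hq j), hmem j⟩
  have hFx : aeval x F = 0 := by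
    apply Subtype.ext
    have h3 : ((aeval x F : EF ω₁ ω₂) : MK) = aeval (fun j => cl (ratio f j k) (hq j)) F := by
      change (EF ω₁ ω₂).val (aeval x F) = _
      rw [comp_aeval_apply]
      rfl
    rw [h3, aeval_cl]
    change _ = (0 : MK)
    rw [cl_eq_zero]
    refine Eventually.of_forall fun z => ?_
    have h4 : (fun j => ratio f j k z) = fun j => ((f z).rep k)⁻¹ * (f z).rep j := by
      funext j
      simp only [ratio]
      rw [div_eq_inv_mul]
    have h5 : aeval (fun j => (f z).rep j) F = 0 := by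
      have := hX z
      rwa [← aeval_eq_eval] at this
    rw [h4, ← aeval_eq_eval, aeval_smul_homog hF, h5, mul_zero]
  have hk0 : x k = 1 := by
    apply Subtype.ext
    change cl (ratio f k k) (hq k) = 1
    have h3 : (1 : MK) = cl (fun _ => 1) (Meromorphic.const 1) := by rw [cl_const, map_one]
    rw [h3, cl_eq]
    refine codis_of_ev fun z => ?_
    filter_upwards [hkk z] with w hw
    simp only [ratio]
    exact div_self hw
  have hloc : ∀ z0, ∃ l, x l ≠ 0 ∧ ∀ j, Reg z0 ((x j / x l : EF ω₁ ω₂) : MK) := by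
    intro z0
    obtain ⟨φ, hφ, hev⟩ := hf z0
    obtain ⟨hv, hfv⟩ := hev.self_of_nhds
    obtain ⟨l, hl⟩ := Function.ne_iff.mp hv
    have hl' : φ z0 l ≠ 0 := hl
    rw [analyticAt_pi_iff] at hφ
    have hne : ∀ᶠ w in 𝓝 z0, φ w l ≠ 0 := (hφ l).continuousAt.eventually_ne hl'
    have hall : ∀ᶠ w in 𝓝[≠] z0, φ w l ≠ 0 ∧ φ w k ≠ 0 ∧ ∀ j, ratio f j k w = φ w j / φ w k := by
      filter_upwards [hne.filter_mono nhdsWithin_le_nhds, hev.filter_mono nhdsWithin_le_nhds,
        hkk z0] with w h3 h4 h5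
      obtain ⟨h6, h7⟩ := h4
      exact ⟨h3, fun h0 => h5 ((ratio_mk h6 h7 k k).2.mpr h0), fun j => (ratio_mk h6 h7 j k).1⟩
    refine ⟨l, ?_, fun j => ?_⟩
    · intro h0
      have h3 : cl (ratio f l k) (hq l) = 0 := congrArg Subtype.val h0
      rw [cl_eq_zero] at h3
      obtain ⟨w, h4, h5, h6, h7⟩ := ((codis_ev h3 z0).and hall).exists
      rw [h7] at h4
      exact (div_ne_zero h5 h6) h4
    · have h3 : ((x j / x l : EF ω₁ ω₂) : MK) = cl (ratio f j k / ratio f l k) ((hq j).div (hq l)) := by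
        rw [← cl_div]
        rfl
      rw [h3]
      refine ⟨Tay z0 (fun w => φ w j / φ w l), TT_an _ ((hφ j).fun_div (hφ l) hl') ?_⟩
      filter_upwards [hall] with w hw
      obtain ⟨h5, h6, h7⟩ := hw
      rw [Pi.div_apply, h7, h7]
      field_simp
  have key := core hF hd hind hω x hFx k hk0 hloc
  have hc : ∀ j, ∃ c : ℂ, ∀ᶠ z in codiscrete ℂ, ratio f j k z = c := by
    intro j
    apply MD_zero (hq j)
    exact congrArg Subtype.val (key j)
  choose c hc using hc
  have hcod : ∀ᶠ z in codiscrete ℂ, (f z).rep k ≠ 0 ∧ ∀ j, ratio f j k z = c j :=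
    (codis_of_ev hkk).and (eventually_all.mpr hc)
  obtain ⟨z9, hz9, hz9'⟩ := hcod.exists
  have hck : c k = 1 := by
    rw [← hz9' k]
    simp only [ratio]
    exact div_self hz9
  have hcne : c ≠ 0 := by
    intro h0
    rw [h0] at hck
    exact zero_ne_one hck
  have hall : ∀ z, f z = Projectivization.mk ℂ c hcne := by
    intro z
    have hg : HoloAt (fun _ : ℂ => (Projectivization.mk ℂ c hcne : ℙ ℂ (Fin (p + 2 + 1) → ℂ))) z :=
      ⟨fun _ => c, analyticAt_const, Eventually.of_forall fun _ => ⟨hcne, rfl⟩⟩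
    refine (hf z).eq_of_eventually hg ?_
    filter_upwards [codis_ev hcod z] with w hw
    obtain ⟨h3, h4⟩ := hw
    conv_lhs => rw [← (f w).mk_rep]
    rw [Pool.Agent.TH182.TC.mk_eq_mk_iff_minors]
    intro i j
    rw [← h4 i, ← h4 j]
    simp only [ratio]
    field_simp
  rw [hall z, hall w]

end Pool.Agent.TH182.VG
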