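import Mathlib
import Pool.Agent.TH182.VG.Rigid
import Pool.Agent.TH143.EL.Exa

/-!
Entire curves on very general hypersurfaces.
-/

set_option autoImplicit false

namespace Pool.Agent.TH182.VG

open Filter Topology Set MvPolynomial
open scoped LinearAlgebra.Projectivization
open Pool.Agent.TH143.EL

variable {n : ℕ}

/-- The hypersurface `F = 0` is smooth. -/
def SmoothHyp (F : MvPolynomial (Fin (n + 1 + 1)) ℂ) : Prop :=
  ∀ x : Fin (n + 1 + 1) → ℂ, x ≠ 0 → eval x F = 0 → ∃ k, eval x (pderiv k F) ≠ 0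

/-- The map `f` from the plane to the projective space has homogeneous coordinates which are
meromorphic functions on the plane, each of them satisfying a nontrivial linear differential
equation with coefficients in `B`. -/
def LinearCoordinates (B : Subalgebra ℂ (ℂ → ℂ)) (f : ℂ → ℙ ℂ (Fin (n + 1 + 1) → ℂ)) : Prop :=
  ∃ h : Fin (n + 1 + 1) → ℂ → ℂ, (∀ j, Meromorphic (h j)) ∧ (∀ j, LinB B (h j)) ∧
    ∀ᶠ z in codiscrete ℂ, Rep (f z) fun j => h j z

/-- Every entire curve in the hypersurface `F = 0` given by linear differential equations over a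
differential ring of meromorphic functions of transcendence degree at most one is constant. -/
def LinearHyperbolic (F : MvPolynomial (Fin (n + 1 + 1)) ℂ) : Prop :=
  ∀ B : Subalgebra ℂ (ℂ → ℂ), TrOne B → ∀ f : ℂ → ℙ ℂ (Fin (n + 1 + 1) → ℂ), HolMap f →
    LinearCoordinates B f → (∀ z, eval (f z).rep F = 0) → ∀ z w, f z = f w

/-- the coefficients of `F` at the monomials of degree `d` -/
def coeffs (d : ℕ) (F : MvPolynomial (Fin (n + 1 + 1)) ℂ) :
    {m : Fin (n + 1 + 1) →₀ ℕ // m.degree = d} → ℂ := fun m => coeff m.1 F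

theorem smooth_of_indep {F : MvPolynomial (Fin (n + 1 + 1)) ℂ} {d : ℕ} (hF : F.IsHomogeneous d)
    (hind : AlgebraicIndependent ℚ (coeffs d F)) : SmoothHyp F := by
  classical
  intro x hx hFx
  have hdeg : ∀ m ∈ F.support, m.degree = d := by
    intro m hm
    by_contra h0
    rw [mem_support_iff] at hm
    exact hm (hF.coeff_eq_zero h0)
  have hFx' : aeval x F = 0 := by rwa [aeval_eq_eval]
  have key := grad_ne (F := F) (d := d) (fun m hm => hind.ne_zero ⟨m, hm⟩) hx (fun m hm => by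
    obtain ⟨D, D', -, -, h2⟩ := exists_dual' hind ℂ ⟨m, hdeg m hm⟩
    refine ⟨fun k => D (x k), rel3 (A := ℂ) (isDer_of_derivation D) (D := fun c => D c)
      (fun c => rfl) hm ?_ ?_ hFx'⟩
    · exact (h2 ⟨m, hdeg m hm⟩).trans (if_pos rfl)
    · intro m' hm' hne
      exact (h2 ⟨m', hdeg m' hm'⟩).trans (if_neg fun h3 => hne (congrArg Subtype.val h3)))
  obtain ⟨k, hk⟩ := key
  exact ⟨k, by rwa [aeval_eq_eval] at hk⟩

theorem hyperbolic_of_indep (hn : 1 ≤ n) {d : ℕ} (hd : 2 * n + 2 ≤ d)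
    {F : MvPolynomial (Fin (n + 1 + 1)) ℂ} (hF : F.IsHomogeneous d)
    (hind : AlgebraicIndependent ℚ (coeffs d F)) : LinearHyperbolic F := by
  obtain ⟨p, rfl⟩ : ∃ p, n = p + 1 := ⟨n - 1, by omega⟩
  intro B hB f hf hl hX
  by_contra hcon
  have hnc : ∃ z w, f z ≠ f w := by
    by_contra h0
    push Not at h0
    exact hcon h0
  obtain ⟨h, hm, hlin, hr⟩ := hl
  have hT : TorusMapsIn (Ideal.span {F}) (⊤ : Ideal (MvPolynomial (Fin (p + 2 + 1)) ℂ)) := by
    intro ω₁ ω₂ hω g hg h1 h2 hgX hgnc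
    exfalso
    obtain ⟨z, w, hzw⟩ := hgnc
    exact hzw (torus_const hF (by omega) hind hω (holo_of_holMap hg) h1 h2
      (fun z => hgX z F (Ideal.mem_span_singleton_self F) ⟨d, hF⟩) z w)
  have h1 := main hT hB hf hm hlin hr (fun z G hG hGh => by
    obtain ⟨Q, rfl⟩ := Ideal.mem_span_singleton'.mp hG
    rw [map_mul, hX, mul_zero]) hnc 0
  have h2 := h1 1 (Submodule.mem_top) ⟨0, isHomogeneous_one _ _⟩
  rw [map_one] at h2
  exact one_ne_zero h2

/-- the polynomials with rational coefficients form a countable family -/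
theorem very_general (d : ℕ) : ∃ Ps : Set (MvPolynomial
    {m : Fin (n + 1 + 1) →₀ ℕ // m.degree = d} ℂ), Ps.Countable ∧ (0 : MvPolynomial _ ℂ) ∉ Ps ∧
      ∀ F : MvPolynomial (Fin (n + 1 + 1)) ℂ, (∀ P ∈ Ps, eval (coeffs d F) P ≠ 0) →
        AlgebraicIndependent ℚ (coeffs d F) := by
  classical
  have hfin : Finite {m : Fin (n + 1 + 1) →₀ ℕ // m.degree = d} := by
    have h1 : {m : Fin (n + 1 + 1) →₀ ℕ | m.degree = d}.Finite := by
      refine (Finsupp.finite_of_degree_le d).subset ?_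
      intro m hm
      exact le_of_eq hm
    exact h1
  have hc : Countable (MvPolynomial {m : Fin (n + 1 + 1) →₀ ℕ // m.degree = d} ℚ) := by
    have := Finite.to_countable (α := {m : Fin (n + 1 + 1) →₀ ℕ // m.degree = d})
    rw [← Cardinal.mk_le_aleph0_iff]
    refine MvPolynomial.cardinalMk_le_max.trans ?_
    simp
  refine ⟨(fun P => map (algebraMap ℚ ℂ) P) '' {P | P ≠ 0}, (Set.to_countable _).image _, ?_, ?_⟩
  · rintro ⟨P, hP, h0⟩
    apply hP
    exact (map_injective _ (algebraMap ℚ ℂ).injective) (h0.trans (map_zero _).symm)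
  · intro F hF
    rw [algebraicIndependent_iff]
    intro P hP
    by_contra hP0
    apply hF _ ⟨P, hP0, rfl⟩
    rw [eval_map, ← aeval_def]
    exact hP

end Pool.Agent.TH182.VG
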